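import Pool.Agent.Lib.LamSpec.Sys

/-!
# Numbers with regularly growing denominators of convergents: points of full degree
-/

set_option autoImplicit false

open Finset

namespace Pool.Agent.LamSpec

namespace Sys

variable {w : ℝ} (S : Sys w)

lemma V_top (q p : ℤ) (m : ℕ) (y : ℕ → ℤ) : V q p m m y := fun l h1 h2 => by omega

lemma log_abs_Z (k b : ℕ) {X : ℝ} (hX : X ≠ 0) :
    Real.log |X * S.L k ^ b| = Real.log |X| + b * Real.log |S.L k| := by
  rw [abs_mul, abs_pow, Real.log_mul (abs_pos.2 hX).ne' (pow_pos (S.abs_L_pos k) b).ne',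
    Real.log_pow]

/-- The points of degree `n` at `p_{k+1} / q_{k+1}`. -/
lemma caseB {n : ℕ} {θ : ℝ} (hn : 1 ≤ n) (hw : n < w) (h1 : 1 ≤ θ * (w - 1)) (h2 : 1 + 1 / w ≤ θ * n)
    {k : ℕ} {x : ℕ → ℤ} {E : ℝ} (hE : 0 < E) (hN : Near S.ξ x n (x 0) E) (hx0 : x 0 ≠ 0)
    (hlt : |x 0| < S.q (k + 2) ^ n) (hge : S.q (k + 1) ^ n ≤ |x 0|)
    (hdeg : (D (S.q (k + 1)) (S.p (k + 1)) ^ n) x 0 ≠ 0)
    (hbig : a0 n ≤ (w - n) * S.l (k + 2)) :
    -Real.log E ≤ θ * Real.log |(x 0 : ℝ)| + (1 + θ) * (a0 n + (n + 2) * (S.c + 2)) := by
  by_contra hcon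
  push Not at hcon
  have hnR : (1:ℝ) ≤ n := by exact_mod_cast hn
  have hw1 : 1 < w := by linarith
  have hw0 : 0 < w := by linarith
  have hθ : 0 < θ := by
    by_contra hneg
    push Not at hneg
    have := mul_nonpos_of_nonpos_of_nonneg hneg (by linarith : (0:ℝ) ≤ w - 1)
    linarith
  have hθw : 1 ≤ θ * w := by
    have e : θ * (w - 1) = θ * w - θ := by ring
    linarith
  have hθn : 1 ≤ θ * n := by
    have : 0 < 1 / w := by positivity
    linarith
  have hθw' : 1 + 1 / w ≤ θ * w := by
    have h3 : θ * (w - 1) ≤ θ * w - θ := by ring_nf; rfl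
    have h4 : 1 / w ≤ θ := by
      rw [div_le_iff₀ hw0]
      exact hθw
    linarith
  have hθw'' : 1 / w ≤ θ := by
    rw [div_le_iff₀ hw0]
    exact hθw
  have hqZ : (0:ℤ) < S.q k := by linarith only [S.hq k]
  have hqk := S.q_pos k
  have hqk1 := S.q_pos (k + 1)
  have hqk2 := S.q_pos (k + 2)
  have hX : (1:ℝ) ≤ |(x 0 : ℝ)| := by exact_mod_cast Int.one_le_abs hx0
  have hX0 : (0:ℝ) < |(x 0 : ℝ)| := by linarith
  have hx0R : (x 0 : ℝ) ≠ 0 := by exact_mod_cast hx0
  have hσ0 : 0 ≤ Real.log |(x 0 : ℝ)| := Real.log_nonneg hX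
  have hA := A_pos n
  have hA1 := one_le_A n
  have ha0 := a0_nonneg n
  have hc := S.hc
  have hlog2 : Real.log 2 ≤ 1 := by linarith [Real.log_two_lt_d9]
  have hlog2' : 0 ≤ Real.log 2 := Real.log_nonneg (by norm_num)
  have hlR := S.l_pos k
  have hl1 := S.l_pos (k + 1)
  have hl2 := S.l_pos (k + 2)
  have g1 := S.l_succ_ge k
  have g1' := S.l_succ_le k
  have g2 := S.l_succ_ge (k + 1)
  have g2' := S.l_succ_le (k + 1)
  have hlogL := S.log_L_le (k + 1)
  obtain ⟨a, ha1, haY, hamin⟩ := exists_exponent (2 * A n * |(x 0 : ℝ)|) 1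
    (S.q (k + 2)) (S.one_lt_q (k + 2)) one_pos
  set B := a0 n + (n + 2) * (S.c + 2) with hB
  have hB' : B = a0 n + n * S.c + 2 * S.c + 2 * n + 4 := by rw [hB]; ring
  have hnc : 0 ≤ (n:ℝ) * S.c := mul_nonneg (by linarith) hc
  clear_value B
  have hB0 : 0 ≤ B := by linarith only [hB', hnc, hc, hnR, ha0]
  have hBa : a0 n ≤ B := by linarith only [hB', hnc, hc, hnR]
  by_cases han : n < a
  · -- the next linear form
    have hY : (S.q (k + 2) : ℝ) ^ n < 2 * A n * |(x 0 : ℝ)| := by
      rcases hamin with ha | ha
      · omega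
      · refine lt_of_le_of_lt ?_ ha
        rw [one_mul]
        exact pow_le_pow_right₀ (S.one_lt_q (k + 2)).le (by omega)
    have hσ : ((n:ℝ) * w) * S.l (k + 1) - a0 n ≤ Real.log |(x 0 : ℝ)| := by
      have h8 := Real.log_lt_log (by positivity) hY
      rw [Real.log_pow, Real.log_mul (by positivity) hX0.ne'] at h8
      have h10 : (n:ℝ) * (w * S.l (k + 1)) ≤ (n:ℝ) * S.l (k + 2) :=
        mul_le_mul_of_nonneg_left g2 (Nat.cast_nonneg n)
      unfold a0
      unfold l at h10 ⊢
      linarith only [h8, h10]
    have hltR : |(x 0 : ℝ)| < (S.q (k + 2) : ℝ) ^ n := by exact_mod_cast hlt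
    have hltlog : Real.log |(x 0 : ℝ)| ≤ n * S.l (k + 2) := by
      have := Real.log_le_log hX0 hltR.le
      rwa [Real.log_pow] at this
    obtain ⟨n', hn'⟩ : ∃ n', n = n' + 1 := ⟨n - 1, by omega⟩
    have hN' : Near S.ξ (D (S.q (k + 2)) (S.p (k + 2)) x) n'
        ((x 0 : ℝ) * S.L (k + 2)) (2 * S.q (k + 2) * E) :=
      Near.step (by rwa [hn'] at hN) (S.hp0 _) (S.hpq _)
    obtain ⟨i, hi, hne⟩ := S.next_ne_zero hx0 (k + 2) hlt
    have h4 := lemA_near S.hξ0 S.hξ1 (n := n) (hqZ : (0:ℤ) < S.q k) (S.hp0 k)
      (S.hco k) (by omega) le_rfl (V_top (S.q k) (S.p k) n' _) ⟨i, by omega, hne⟩ hN'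
    rw [abs_mul, Nat.sub_self, pow_zero] at h4
    have h5 : 2 * A n * (|(x 0 : ℝ)| * |S.L (k + 2)|) ≤ 1 := S.next_small (k + 1) hX0 hltlog hbig
    have h6 := log_ge_of_alt hA one_pos h4 h5
    rw [Real.log_one, Real.log_mul (by positivity) hE.ne', Real.log_mul (by norm_num) hqk2.ne'] at h6
    have h7 : -Real.log E ≤ w * S.l (k + 1) + (a0 n + S.c + Real.log 2) := by
      unfold a0
      unfold l at g2' ⊢
      linarith only [h6, g2']
    have hK1 : a0 n + S.c + Real.log 2 ≤ B := by linarith only [hB', hnc, hc, hnR, hlog2]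
    have hwn : w ≤ θ * ((n:ℝ) * w) := by
      have := mul_le_mul_of_nonneg_right hθn hw0.le
      linarith only [this]
    have := finish hθ.le hl1.le hwn hσ h7 hK1 hBa
    linarith only [this, hcon]
  · push Not at han
    -- Lemma A for `D^a x`
    have hsmall : 2 * A n * (|(x 0 : ℝ)| * |S.L (k + 1)| ^ a) ≤ 1 := by
      rw [← mul_assoc]
      exact S.small_of_le zero_le_one haY
    have hstar : -Real.log E ≤ a * S.l (k + 1) + (a0 n + a * Real.log 2) := by
      have hN' := hN.pow (S.hp0 (k + 1)) (S.hpq (k + 1)) a han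
      have hz : ∃ i ≤ n - a, (D (S.q (k + 1)) (S.p (k + 1)) ^ a) x i ≠ 0 := by
        have h3 : (D (S.q (k + 1)) (S.p (k + 1)) ^ (n - a))
            ((D (S.q (k + 1)) (S.p (k + 1)) ^ a) x) 0 ≠ 0 := by
          rw [← D_pow_add, Nat.sub_add_cancel han]
          exact hdeg
        exact exists_ne_of_D_pow h3
      have h4 := lemA_near S.hξ0 S.hξ1 (n := n) (hqZ : (0:ℤ) < S.q k) (S.hp0 k)
        (S.hco k) (by omega) le_rfl (V_top (S.q k) (S.p k) (n - a) _) hz hN'
      rw [Nat.sub_self, pow_zero, abs_mul, abs_pow] at h4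
      have h6 := log_ge_of_alt hA one_pos h4 hsmall
      rw [Real.log_one, Real.log_mul (by positivity) hE.ne', Real.log_pow,
        Real.log_mul (by norm_num) hqk1.ne'] at h6
      unfold a0
      unfold l
      linarith only [h6]
    have haR : (a:ℝ) ≤ n := by exact_mod_cast han
    have hK1a : a0 n + a * Real.log 2 ≤ B := by
      have : (a:ℝ) * Real.log 2 ≤ n * 1 := by
        apply mul_le_mul haR hlog2 hlog2' (Nat.cast_nonneg n)
      linarith only [this, hB', hnc, hc, hnR]
    rcases hamin with ha | ha
    · -- `a = 1`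
      subst ha
      have hgeR : (S.q (k + 1) : ℝ) ^ n ≤ |(x 0 : ℝ)| := by exact_mod_cast hge
      have hσ : (n:ℝ) * S.l (k + 1) - 0 ≤ Real.log |(x 0 : ℝ)| := by
        have := Real.log_le_log (by positivity) hgeR
        rw [Real.log_pow] at this
        unfold l
        linarith only [this]
      have := finish hθ.le hl1.le (by push_cast; exact hθn : ((1:ℕ):ℝ) ≤ θ * (n:ℝ)) hσ hstar hK1a hB0
      linarith only [this, hcon]
    · by_cases ha' : a = 1
      · subst ha'
        have hgeR : (S.q (k + 1) : ℝ) ^ n ≤ |(x 0 : ℝ)| := by exact_mod_cast hge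
        have hσ : (n:ℝ) * S.l (k + 1) - 0 ≤ Real.log |(x 0 : ℝ)| := by
          have := Real.log_le_log (by positivity) hgeR
          rw [Real.log_pow] at this
          unfold l
          linarith only [this]
        have := finish hθ.le hl1.le (by push_cast; exact hθn : ((1:ℕ):ℝ) ≤ θ * (n:ℝ)) hσ hstar hK1a hB0
        linarith only [this, hcon]
      obtain ⟨b, rfl⟩ : ∃ b, a = b + 1 := ⟨a - 1, by omega⟩
      have hb1 : 1 ≤ b := by omega
      have hb1R : (1:ℝ) ≤ b := by exact_mod_cast hb1
      rw [Nat.add_sub_cancel, one_mul] at ha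
      obtain ⟨N, hNn⟩ : ∃ N, n = b + N := ⟨n - b, by omega⟩
      have hN1 : 1 ≤ N := by omega
      have hN1R : (1:ℝ) ≤ N := by exact_mod_cast hN1
      have hnbN : (n:ℝ) = b + N := by exact_mod_cast hNn
      -- lower bound for the size
      have hσb : (b:ℝ) * S.l (k + 2) - a0 n ≤ Real.log |(x 0 : ℝ)| := by
        have h8 := Real.log_lt_log (by positivity) ha
        rw [Real.log_pow, Real.log_mul (by positivity) hX0.ne'] at h8
        unfold a0 l
        linarith only [h8]
      have hσb' : (b * w) * S.l (k + 1) - a0 n ≤ Real.log |(x 0 : ℝ)| := by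
        have : (b:ℝ) * (w * S.l (k + 1)) ≤ b * S.l (k + 2) :=
          mul_le_mul_of_nonneg_left g2 (Nat.cast_nonneg b)
        linarith only [this, hσb]
      -- the point `z`
      set z := (D (S.q (k + 1)) (S.p (k + 1)) ^ b) x with hzdef
      set Z : ℝ := (x 0 : ℝ) * S.L (k + 1) ^ b with hZdef
      set E' : ℝ := (2 * S.q (k + 1)) ^ b * E with hE'def
      have hE' : 0 < E' := by rw [hE'def]; positivity
      have hNz : Near S.ξ z N Z E' := by
        have := hN.pow (S.hp0 (k + 1)) (S.hpq (k + 1)) b (by omega)
        have e : n - b = N := by omega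
        rwa [e] at this
      have hZ0 : Z ≠ 0 := by
        rw [hZdef]
        exact mul_ne_zero hx0R (pow_ne_zero _ (S.hL (k + 1)))
      have hlogZ : Real.log |Z| = Real.log |(x 0 : ℝ)| + b * Real.log |S.L (k + 1)| :=
        S.log_abs_Z (k + 1) b hx0R
      have hZpos : 0 < |Z| := abs_pos.2 hZ0
      have hσZ : Real.log |Z| + (b * w) * S.l (k + 1) ≤ Real.log |(x 0 : ℝ)| := by
        have h5 : (b:ℝ) * Real.log |S.L (k + 1)| ≤ b * (-S.l (k + 2)) :=
          mul_le_mul_of_nonneg_left hlogL (Nat.cast_nonneg b)
        have h6 : (b:ℝ) * (w * S.l (k + 1)) ≤ b * S.l (k + 2) :=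
          mul_le_mul_of_nonneg_left g2 (Nat.cast_nonneg b)
        rw [hlogZ]
        linarith only [h5, h6]
      have hlogE' : Real.log E' = b * (Real.log 2 + S.l (k + 1)) + Real.log E := by
        rw [hE'def, Real.log_mul (by positivity) hE.ne', Real.log_pow,
          Real.log_mul (by norm_num) hqk1.ne']
        rfl
      have hdegz : ∃ i ≤ N, z i ≠ 0 := by
        have h3 : (D (S.q (k + 1)) (S.p (k + 1)) ^ N) z 0 ≠ 0 := by
          rw [hzdef, ← D_pow_add, add_comm N b, ← hNn]
          exact hdeg
        exact exists_ne_of_D_pow h3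
      obtain ⟨i, hiN, hdi, hVi⟩ := exists_deg (S.q k) (S.p k) hqZ.ne' N z hdegz
      obtain ⟨e, he⟩ : ∃ e, N = i + e := ⟨N - i, by omega⟩
      have heR : (N:ℝ) = i + e := by exact_mod_cast he
      have he0 : (0:ℝ) ≤ e := Nat.cast_nonneg e
      have hi0 : (0:ℝ) ≤ i := Nat.cast_nonneg i
      obtain ⟨f, hf1, hfY, hfmin⟩ := exists_exponent (2 * A n * |Z|) ((S.q k : ℝ) ^ e)
        (S.q (k + 1)) (S.one_lt_q (k + 1)) (by positivity)
      have hf1R : (1:ℝ) ≤ f := by exact_mod_cast hf1
      have hlRw : S.l k ≤ S.l (k + 1) / w := by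
        rw [le_div_iff₀ hw0]
        linarith only [g1]
      by_cases hfi : f ≤ i
      · -- Lemma A for `D_k^f z`
        have hN' := hNz.pow (S.hp0 k) (S.hpq k) f (by omega)
        have hz : ∃ i' ≤ N - f, (D (S.q k) (S.p k) ^ f) z i' ≠ 0 := by
          have h3 : (D (S.q k) (S.p k) ^ (i - f)) ((D (S.q k) (S.p k) ^ f) z) 0 ≠ 0 := by
            rw [← D_pow_add, Nat.sub_add_cancel hfi]
            exact hdi
          obtain ⟨i', hi', hne⟩ := exists_ne_of_D_pow h3
          exact ⟨i', by omega, hne⟩
        have h4 := lemA_near S.hξ0 S.hξ1 (n := n) (hqZ : (0:ℤ) < S.q k) (S.hp0 k)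
          (S.hco k) (by omega) (by omega) (hVi.pow f hfi hiN) hz hN'
        have e1 : N - f - (i - f) = e := by omega
        rw [e1, abs_mul, abs_pow] at h4
        have h5 : 2 * A n * (|Z| * |S.L k| ^ f) ≤ (S.q k : ℝ) ^ e := by
          rw [← mul_assoc]
          exact S.small_of_le (by positivity) hfY
        have h6 := log_ge_of_alt hA (by positivity) h4 h5
        rw [Real.log_pow, Real.log_mul (by positivity) hE'.ne', Real.log_pow,
          Real.log_mul (by norm_num) hqk.ne', hlogE'] at h6
        have hfn : (f:ℝ) + b ≤ n := by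
          have : f + b ≤ n := by omega
          exact_mod_cast this
        have h7 : -Real.log E ≤ (b + f / w) * S.l (k + 1) + (a0 n + (f + b) * Real.log 2) := by
          have h8 : (f:ℝ) * S.l k ≤ f * (S.l (k + 1) / w) :=
            mul_le_mul_of_nonneg_left hlRw (Nat.cast_nonneg f)
          have h9 : (0:ℝ) ≤ e * S.l k := by positivity
          have h10 : (b + f / w) * S.l (k + 1) = b * S.l (k + 1) + f * (S.l (k + 1) / w) := by ring
          rw [h10]
          unfold a0
          unfold l at h8 h9 h6 ⊢
          linarith only [h6, h8, h9]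
        have hσ : (b * w + ((f:ℝ) - 1)) * S.l (k + 1) - a0 n ≤ Real.log |(x 0 : ℝ)| := by
          rcases hfmin with hf | hf
          · rw [hf]
            push_cast
            linarith only [hσb']
          · have h8 := Real.log_lt_log (by positivity) hf
            rw [Real.log_mul (by positivity) (by positivity), Real.log_pow, Real.log_pow,
              Real.log_mul (by positivity) hZpos.ne', Nat.cast_sub hf1] at h8
            have h9 : (0:ℝ) ≤ e * S.l k := by positivity
            push_cast at h8
            unfold a0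
            unfold l at h9 hσZ ⊢
            linarith only [h8, h9, hσZ]
        have hK1 : a0 n + ((f:ℝ) + b) * Real.log 2 ≤ B := by
          have : ((f:ℝ) + b) * Real.log 2 ≤ n * 1 := by
            apply mul_le_mul hfn hlog2 hlog2' (Nat.cast_nonneg n)
          linarith only [this, hB', hnc, hc, hnR]
        have hse : (b:ℝ) + f / w ≤ θ * (b * w + ((f:ℝ) - 1)) := by
          have h8 : (b:ℝ) * (1 + 1 / w) ≤ b * (θ * w) := mul_le_mul_of_nonneg_left hθw' (Nat.cast_nonneg b)
          have h9 : ((f:ℝ) - 1) * (1 / w) ≤ (f - 1) * θ :=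
            mul_le_mul_of_nonneg_left hθw'' (by linarith only [hf1R])
          have h10 : 1 / w ≤ b * (1 / w) := le_mul_of_one_le_left (by positivity) hb1R
          have h11 : (f:ℝ) / w = (f - 1) * (1 / w) + 1 / w := by ring
          rw [h11]
          have h12 : θ * (b * w + ((f:ℝ) - 1)) = b * (θ * w) + (f - 1) * θ := by ring
          have h13 : (b:ℝ) * (1 + 1 / w) = b + b * (1 / w) := by ring
          rw [h12]
          linarith only [h8, h9, h10, h13]
        have := finish hθ.le hl1.le hse hσ h7 hK1 hBa
        linarith only [this, hcon]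
      · push Not at hfi
        by_cases hiN' : i = N
        · -- full degree at level `k`
          have he' : e = 0 := by omega
          subst he'
          rw [pow_zero] at hfmin
          have hY : (S.q (k + 1) : ℝ) ^ N < 2 * A n * |Z| := by
            rcases hfmin with hf | hf
            · omega
            · refine lt_of_le_of_lt ?_ hf
              rw [one_mul]
              exact pow_le_pow_right₀ (S.one_lt_q (k + 1)).le (by omega)
          have hσ : (b * w + (N:ℝ)) * S.l (k + 1) - a0 n ≤ Real.log |(x 0 : ℝ)| := by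
            have h8 := Real.log_lt_log (by positivity) hY
            rw [Real.log_pow, Real.log_mul (by positivity) hZpos.ne'] at h8
            unfold a0
            unfold l at hσZ ⊢
            linarith only [h8, hσZ]
          have hse : ((b + 1 : ℕ) : ℝ) ≤ θ * (b * w + (N:ℝ)) := by
            push_cast
            have h8 : (b:ℝ) * 1 ≤ b * (θ * (w - 1)) :=
              mul_le_mul_of_nonneg_left h1 (Nat.cast_nonneg b)
            rw [hnbN] at hθn
            have h9 : θ * (b * w + (N:ℝ)) = b * (θ * (w - 1)) + θ * (b + N) := by ring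
            rw [h9]
            linarith only [h8, hθn]
          have := finish hθ.le hl1.le hse hσ hstar hK1a hBa
          linarith only [this, hcon]
        · have he1 : 1 ≤ e := by omega
          have he1R : (1:ℝ) ≤ e := by exact_mod_cast he1
          -- `2 A |Z| ≥ R^e Q^i`
          have hY : (S.q k : ℝ) ^ e * (S.q (k + 1) : ℝ) ^ i ≤ 2 * A n * |Z| := by
            rcases hfmin with hf | hf
            · -- `f = 1`, `i = 0`
              have hi' : i = 0 := by omega
              subst hi'
              rw [pow_zero, mul_one]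
              have he' : e = N := by omega
              rw [he']
              have hDz : ∀ i' < N, D (S.q k) (S.p k) z i' = 0 := by
                intro i' hi'
                refine zero_of_D_pow (S.q k) (S.p k) hqZ.ne' (N - 1)
                  (D (S.q k) (S.p k) z) (fun l hl => ?_) i' (by omega)
                rw [← D_pow_succ]
                exact hVi (l + 1) (by omega) (by omega)
              have hdvd := pow_dvd_of_D_eq_zero (S.hco k) N z hDz
              have hz0 : z 0 ≠ 0 := by
                rw [pow_zero, Module.End.one_apply] at hdi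
                exact hdi
              have hle := Int.le_of_dvd (abs_pos.2 hz0) ((dvd_abs _ _).2 hdvd)
              have hleR : (S.q k : ℝ) ^ N ≤ |(z 0 : ℝ)| := by exact_mod_cast hle
              have hz0Z := hNz.abs_le S.hξ0 S.hξ1 (Nat.zero_le N)
              have hE'small : E' < 1 / 2 := by
                have h8 : Real.log E' < -Real.log 2 := by
                  rw [hlogE']
                  have h9 : θ * ((b * w) * S.l (k + 1) - a0 n) ≤ θ * Real.log |(x 0 : ℝ)| :=
                    mul_le_mul_of_nonneg_left hσb' hθ.le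
                  have h10 : (b:ℝ) * S.l (k + 1) * 1 ≤ b * S.l (k + 1) * (θ * w) :=
                    mul_le_mul_of_nonneg_left hθw (by positivity)
                  have h11 : (b:ℝ) * Real.log 2 ≤ n * 1 := by
                    apply mul_le_mul _ hlog2 hlog2' (Nat.cast_nonneg n)
                    rw [hnbN]
                    linarith only [hN1R]
                  have h12 : θ * a0 n ≤ θ * B := mul_le_mul_of_nonneg_left hBa hθ.le
                  have h13 : (n:ℝ) + 2 ≤ B := by linarith only [hB', ha0, hnc, hc, hnR]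
                  have e9 : θ * ((b * w) * S.l (k + 1) - a0 n)
                    = b * S.l (k + 1) * (θ * w) - θ * a0 n := by ring
                  have e10 : (b:ℝ) * (Real.log 2 + S.l (k + 1))
                    = b * Real.log 2 + b * S.l (k + 1) := by ring
                  have e11 : (1 + θ) * B = B + θ * B := by ring
                  rw [e9] at h9
                  rw [e10]
                  rw [e11] at hcon
                  linarith only [h9, h10, h11, h12, h13, hcon, hlog2]
                have h9 : Real.log E' < Real.log (1 / 2) := by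
                  rw [one_div, Real.log_inv]
                  exact h8
                exact (Real.log_lt_log_iff hE' (by norm_num)).1 h9
              have h14 : (2:ℝ) ^ N ≤ (S.q k : ℝ) ^ N :=
                pow_le_pow_left₀ (by norm_num) (S.two_le_q k) N
              have h15 : (1:ℝ) ≤ 2 ^ N := one_le_pow₀ (by norm_num)
              have h16 : (S.q k : ℝ) ^ N ≤ 2 * |Z| := by
                linarith only [hleR, hz0Z, hE'small, h14, h15]
              have h17 : 2 * |Z| * 1 ≤ 2 * |Z| * A n :=
                mul_le_mul_of_nonneg_left hA1 (by positivity)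
              linarith only [h16, h17]
            · refine le_trans ?_ hf.le
              apply mul_le_mul_of_nonneg_left _ (by positivity)
              exact pow_le_pow_right₀ (S.one_lt_q (k + 1)).le (by omega)
          have hlRge : S.l (k + 1) / w - S.c ≤ S.l k := by
            rw [sub_le_iff_le_add, div_le_iff₀ hw0]
            have h8 : S.c * 1 ≤ S.c * w := mul_le_mul_of_nonneg_left hw1.le hc
            have e8 : (S.l k + S.c) * w = w * S.l k + S.c * w := by ring
            rw [e8]
            linarith only [h8, g1']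
          have hen : (e:ℝ) ≤ n := by
            have : e ≤ n := by omega
            exact_mod_cast this
          have hσ : (b * w + e / w + (i:ℝ)) * S.l (k + 1) - (a0 n + e * S.c)
              ≤ Real.log |(x 0 : ℝ)| := by
            have h8 := Real.log_le_log (by positivity) hY
            rw [Real.log_mul (by positivity) (by positivity), Real.log_pow, Real.log_pow,
              Real.log_mul (by positivity) hZpos.ne'] at h8
            have h9 : (e:ℝ) * (S.l (k + 1) / w - S.c) ≤ e * S.l k :=
              mul_le_mul_of_nonneg_left hlRge he0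
            have h10 : (b * w + e / w + (i:ℝ)) * S.l (k + 1)
              = (b * w) * S.l (k + 1) + e * (S.l (k + 1) / w) + i * S.l (k + 1) := by ring
            rw [h10]
            unfold a0
            unfold l at h9 hσZ ⊢
            linarith only [h8, h9, hσZ]
          -- Lemma A for `D_{k+1} z`
          obtain ⟨N', hN'⟩ : ∃ N', N = N' + 1 := ⟨N - 1, by omega⟩
          have hNz' : Near S.ξ (D (S.q (k + 1)) (S.p (k + 1)) z) N'
              (Z * S.L (k + 1)) (2 * S.q (k + 1) * E') :=
            Near.step (by rwa [hN'] at hNz) (S.hp0 _) (S.hpq _)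
          have hV' : V (S.q k) (S.p k) N' i (D (S.q (k + 1)) (S.p (k + 1)) z) :=
            V.comp hqZ.ne' (by rwa [hN'] at hVi) _ _
          have hne' : ∃ i' ≤ N', D (S.q (k + 1)) (S.p (k + 1)) z i' ≠ 0 := by
            have h3 : (D (S.q (k + 1)) (S.p (k + 1)) ^ N')
                (D (S.q (k + 1)) (S.p (k + 1)) z) 0 ≠ 0 := by
              rw [← D_pow_succ, hzdef, ← D_pow_add]
              have : N' + 1 + b = n := by omega
              rw [this]
              exact hdeg
            exact exists_ne_of_D_pow h3
          have h4 := lemA_near S.hξ0 S.hξ1 (n := n) (hqZ : (0:ℤ) < S.q k)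
            (S.hp0 k) (S.hco k) (by omega) (by omega) hV' hne' hNz'
          have h5 : 2 * A n * |Z * S.L (k + 1)| ≤ (S.q k : ℝ) ^ (N' - i) := by
            have h6 : |Z * S.L (k + 1)| = |(x 0 : ℝ)| * |S.L (k + 1)| ^ (b + 1) := by
              rw [hZdef, abs_mul, abs_mul, abs_pow]
              ring
            rw [h6]
            exact hsmall.trans (one_le_pow₀ (S.one_lt_q k).le)
          have h6 := log_ge_of_alt hA (by positivity) h4 h5
          rw [Real.log_pow, Real.log_mul (by positivity) hE'.ne',
            Real.log_mul (by norm_num) hqk1.ne', hlogE'] at h6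
          have hsub : ((N' - i : ℕ) : ℝ) = e - 1 := by
            have : N' - i = e - 1 := by omega
            rw [this, Nat.cast_sub he1]
            simp
          rw [hsub] at h6
          have h7 : -Real.log E ≤ (b + 1 - (e - 1) / w) * S.l (k + 1)
              + (a0 n + (b + 1) * Real.log 2 + (e - 1) * S.c) := by
            have h9 : ((e:ℝ) - 1) * (S.l (k + 1) / w - S.c) ≤ (e - 1) * S.l k :=
              mul_le_mul_of_nonneg_left hlRge (by linarith only [he1R])
            have h10 : (b + 1 - ((e:ℝ) - 1) / w) * S.l (k + 1)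
              = b * S.l (k + 1) + S.l (k + 1) - (e - 1) * (S.l (k + 1) / w) := by ring
            rw [h10]
            unfold a0
            unfold l at h9 h6 ⊢
            linarith only [h9, h6]
          have hK1 : a0 n + ((b:ℝ) + 1) * Real.log 2 + (e - 1) * S.c ≤ B := by
            have h8 : ((b:ℝ) + 1) * Real.log 2 ≤ (n + 1) * 1 := by
              apply mul_le_mul _ hlog2 hlog2' (by linarith only [hnR])
              rw [hnbN]
              linarith only [hN1R]
            have h9 : ((e:ℝ) - 1) * S.c ≤ n * S.c :=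
              mul_le_mul_of_nonneg_right (by linarith only [hen]) hc
            linarith only [h8, h9, hB', hc, hnR]
          have hK2 : a0 n + (e:ℝ) * S.c ≤ B := by
            have h9 : (e:ℝ) * S.c ≤ n * S.c := mul_le_mul_of_nonneg_right hen hc
            linarith only [h9, hB', hc, hnR]
          have hse : (b:ℝ) + 1 - (e - 1) / w ≤ θ * (b * w + e / w + (i:ℝ)) := by
            have hi' : (i:ℝ) = n - b - e := by rw [hnbN, heR]; ring
            have hen' : (e:ℝ) ≤ w := by linarith only [hen, hw]
            have hew : (e:ℝ) / w ≤ 1 := by rw [div_le_one hw0]; exact hen'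
            have h8 : 0 ≤ (b:ℝ) - e / w := by linarith only [hew, hb1R]
            have h9 : ((b:ℝ) - e / w) * 1 ≤ (b - e / w) * (θ * (w - 1)) :=
              mul_le_mul_of_nonneg_left h1 h8
            have h10 : θ * (b * w + e / w + (i:ℝ)) = θ * n + (b - e / w) * (θ * (w - 1)) := by
              rw [hi']
              field_simp
              ring
            rw [h10]
            have h11 : ((e:ℝ) - 1) / w = e / w - 1 / w := by ring
            rw [h11]
            linarith only [h9, h2]
          have := finish hθ.le hl1.le hse hσ h7 hK1 hK2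
          linarith only [this, hcon]

end Sys

end Pool.Agent.LamSpec
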