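import Pool.Agent.Lib.LamSpec.Sys

/-!
# Existence of transcendental numbers with regularly growing denominators of convergents
-/

set_option autoImplicit false

open Finset

namespace Pool.Agent.LamSpec

/-- The partial quotients. -/
noncomputable def pq (w : ℝ) (b : Bool) (q : ℤ) : ℤ := (if b then 3 else 1) * ⌈(q:ℝ) ^ (w - 1)⌉

/-- Two consecutive convergents. -/
noncomputable def st (w : ℝ) (ε : ℕ → Bool) : ℕ → (ℤ × ℤ) × (ℤ × ℤ)
  | 0 => ((1, 0), (2, 1))
  | k + 1 =>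
    ((st w ε k).2,
      (pq w (ε k) (st w ε k).2.1 * (st w ε k).2.1 + (st w ε k).1.1,
        pq w (ε k) (st w ε k).2.1 * (st w ε k).2.2 + (st w ε k).1.2))

/-- The denominators. -/
noncomputable def Q (w : ℝ) (ε : ℕ → Bool) (k : ℕ) : ℤ := (st w ε k).2.1
/-- The numerators. -/
noncomputable def P (w : ℝ) (ε : ℕ → Bool) (k : ℕ) : ℤ := (st w ε k).2.2
/-- The previous denominators. -/
noncomputable def Q' (w : ℝ) (ε : ℕ → Bool) (k : ℕ) : ℤ := (st w ε k).1.1
/-- The previous numerators. -/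
noncomputable def P' (w : ℝ) (ε : ℕ → Bool) (k : ℕ) : ℤ := (st w ε k).1.2

section

variable (w : ℝ) (ε : ℕ → Bool)

lemma Q_succ (k : ℕ) : Q w ε (k + 1) = pq w (ε k) (Q w ε k) * Q w ε k + Q' w ε k := rfl
lemma P_succ (k : ℕ) : P w ε (k + 1) = pq w (ε k) (Q w ε k) * P w ε k + P' w ε k := rfl
lemma Q'_succ (k : ℕ) : Q' w ε (k + 1) = Q w ε k := rfl
lemma P'_succ (k : ℕ) : P' w ε (k + 1) = P w ε k := rfl

lemma Q_zero : Q w ε 0 = 2 := rfl
lemma P_zero : P w ε 0 = 1 := rfl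
lemma Q'_zero : Q' w ε 0 = 1 := rfl
lemma P'_zero : P' w ε 0 = 0 := rfl

variable {w} (hw : 1 < w)
include hw

lemma ceil_ge {q : ℤ} (hq : 2 ≤ q) : 2 ≤ ⌈(q:ℝ) ^ (w - 1)⌉ := by
  have h1 : (1:ℝ) < (q:ℝ) ^ (w - 1) := by
    apply Real.one_lt_rpow _ (by linarith)
    have : (2:ℝ) ≤ q := by exact_mod_cast hq
    linarith
  have h2 : (1:ℝ) < (⌈(q:ℝ) ^ (w - 1)⌉ : ℝ) := h1.trans_le (Int.le_ceil _)
  have h3 : (1:ℤ) < ⌈(q:ℝ) ^ (w - 1)⌉ := by exact_mod_cast h2
  omega

lemma pq_ge (b : Bool) {q : ℤ} (hq : 2 ≤ q) : 2 ≤ pq w b q := by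
  have := ceil_ge hw hq
  unfold pq
  split <;> omega

lemma inv (k : ℕ) : 1 ≤ Q' w ε k ∧ Q' w ε k ≤ Q w ε k ∧ 2 ≤ Q w ε k ∧ 0 ≤ P' w ε k ∧
    P' w ε k ≤ Q' w ε k ∧ 0 ≤ P w ε k ∧ P w ε k ≤ Q w ε k ∧
    P w ε k * Q' w ε k - P' w ε k * Q w ε k = (-1) ^ k := by
  induction k with
  | zero =>
    rw [Q_zero, P_zero, Q'_zero, P'_zero]
    norm_num
  | succ k ih =>
    obtain ⟨h1, h2, h3, h4, h5, h6, h7, h8⟩ := ih
    rw [Q_succ, P_succ, Q'_succ, P'_succ]
    have ha := pq_ge hw (ε k) h3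
    set a := pq w (ε k) (Q w ε k) with hadef
    refine ⟨by omega, by nlinarith, by nlinarith, h6, h7, by nlinarith, by nlinarith, ?_⟩
    have e : (a * P w ε k + P' w ε k) * Q w ε k - P w ε k * (a * Q w ε k + Q' w ε k)
      = -(P w ε k * Q' w ε k - P' w ε k * Q w ε k) := by ring
    rw [e, h8, pow_succ]
    ring

lemma two_le_Q (k : ℕ) : (2:ℝ) ≤ Q w ε k := by
  obtain ⟨-, -, h, -⟩ := inv ε hw k
  exact_mod_cast h

lemma Q_pos (k : ℕ) : (0:ℝ) < Q w ε k := by linarith [two_le_Q ε hw k]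

lemma Q_succ_ge (k : ℕ) : 2 * (Q w ε k : ℝ) ≤ Q w ε (k + 1) := by
  obtain ⟨h1, h2, h3, -⟩ := inv ε hw k
  have ha := pq_ge hw (ε k) h3
  have : 2 * Q w ε k ≤ Q w ε (k + 1) := by
    rw [Q_succ]
    nlinarith
  exact_mod_cast this

lemma det (k : ℕ) : P w ε (k + 1) * Q w ε k - P w ε k * Q w ε (k + 1) = (-1) ^ (k + 1) := by
  obtain ⟨-, -, -, -, -, -, -, h⟩ := inv ε hw (k + 1)
  rw [Q'_succ, P'_succ] at h
  exact h

omit hw in
/-- The increments. -/
noncomputable def f (w : ℝ) (ε : ℕ → Bool) (k : ℕ) : ℝ := 1 / ((Q w ε k : ℝ) * Q w ε (k + 1))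

lemma f_pos (k : ℕ) : 0 < f w ε k := by
  have h1 := Q_pos ε hw k
  have h2 := Q_pos ε hw (k + 1)
  unfold f
  positivity

lemma f_succ (k : ℕ) : f w ε (k + 1) ≤ f w ε k / 4 := by
  have h1 := Q_pos ε hw k
  have h2 := Q_pos ε hw (k + 1)
  have h3 := Q_pos ε hw (k + 2)
  have h4 := Q_succ_ge ε hw k
  have h5 := Q_succ_ge ε hw (k + 1)
  unfold f
  rw [div_div, div_le_div_iff₀ (by positivity) (by positivity)]
  have h6 : 4 * (Q w ε k : ℝ) ≤ Q w ε (k + 2) := by
    have : (Q w ε (k + 1 + 1) : ℝ) = Q w ε (k + 2) := rfl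
    linarith
  have h7 := mul_le_mul_of_nonneg_left h6 h2.le
  have e : Q w ε (k + 1 + 1) = Q w ε (k + 2) := rfl
  rw [e]
  linarith

lemma f_antitone : Antitone (f w ε) := by
  refine antitone_nat_of_succ_le fun k => ?_
  have h1 := f_succ ε hw k
  have h2 := f_pos ε hw k
  linarith

lemma f_le (k : ℕ) : f w ε k ≤ (1 / 4) ^ k * f w ε 0 := by
  induction k with
  | zero => simp
  | succ k ih =>
    have h1 := f_succ ε hw k
    calc f w ε (k + 1) ≤ f w ε k / 4 := h1
      _ ≤ (1 / 4) ^ k * f w ε 0 / 4 := by linarith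
      _ = (1 / 4) ^ (k + 1) * f w ε 0 := by rw [pow_succ]; ring

lemma f_summable : Summable (f w ε) := by
  refine Summable.of_nonneg_of_le (fun k => (f_pos ε hw k).le) (f_le ε hw) ?_
  exact (summable_geometric_of_lt_one (by norm_num) (by norm_num)).mul_right _

omit hw in
/-- The number. -/
noncomputable def xi (w : ℝ) (ε : ℕ → Bool) : ℝ := 1 / 2 - ∑' i : ℕ, (-1) ^ i * f w ε i

lemma partial_sum (k : ℕ) :
    (P w ε k : ℝ) / Q w ε k = 1 / 2 - ∑ i ∈ range k, (-1) ^ i * f w ε i := by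
  induction k with
  | zero =>
    rw [P_zero, Q_zero]
    simp
  | succ k ih =>
    rw [sum_range_succ]
    have h1 := Q_pos ε hw k
    have h2 := Q_pos ε hw (k + 1)
    have h3 : (P w ε (k + 1) : ℝ) * Q w ε k - P w ε k * Q w ε (k + 1) = (-1) ^ (k + 1) := by
      exact_mod_cast det ε hw k
    have e : (P w ε (k + 1) : ℝ) / Q w ε (k + 1) = P w ε k / Q w ε k - (-1) ^ k * f w ε k := by
      unfold f
      field_simp
      rw [pow_succ] at h3
      linarith
    rw [e, ih]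
    ring

lemma xi_sub_le (k : ℕ) : |xi w ε - (P w ε k : ℝ) / Q w ε k| ≤ f w ε k := by
  have h := alternating_series_error_bound (f w ε) (f_antitone ε hw) (f_summable ε hw) k
  rw [partial_sum ε hw k]
  unfold xi
  have e : (1 / 2 - ∑' i : ℕ, (-1) ^ i * f w ε i) - (1 / 2 - ∑ i ∈ range k, (-1) ^ i * f w ε i)
    = -((∑' i : ℕ, (-1) ^ i * f w ε i) - ∑ i ∈ range k, (-1) ^ i * f w ε i) := by ring
  rw [e, abs_neg]
  exact h

lemma xi_sub_ge (k : ℕ) : 3 / 4 * f w ε k ≤ |xi w ε - (P w ε k : ℝ) / Q w ε k| := by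
  have h1 := xi_sub_le ε hw (k + 1)
  have h2 := f_succ ε hw k
  have h3 : |(P w ε (k + 1) : ℝ) / Q w ε (k + 1) - P w ε k / Q w ε k| = f w ε k := by
    rw [partial_sum ε hw, partial_sum ε hw, sum_range_succ]
    have e : (1 / 2 - (∑ i ∈ range k, (-1) ^ i * f w ε i + (-1) ^ k * f w ε k))
      - (1 / 2 - ∑ i ∈ range k, (-1) ^ i * f w ε i) = -((-1) ^ k * f w ε k) := by ring
    rw [e, abs_neg, abs_mul, abs_pow, abs_neg, abs_one, one_pow, one_mul,
      abs_of_pos (f_pos ε hw k)]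
  have h4 : |(P w ε (k + 1) : ℝ) / Q w ε (k + 1) - P w ε k / Q w ε k|
      ≤ |xi w ε - (P w ε k : ℝ) / Q w ε k| + |xi w ε - (P w ε (k + 1) : ℝ) / Q w ε (k + 1)| := by
    have e : (P w ε (k + 1) : ℝ) / Q w ε (k + 1) - P w ε k / Q w ε k
      = (xi w ε - (P w ε k : ℝ) / Q w ε k) - (xi w ε - (P w ε (k + 1) : ℝ) / Q w ε (k + 1)) := by
      ring
    rw [e]
    exact abs_sub _ _
  linarith

lemma abs_L_eq (k : ℕ) : |(Q w ε k : ℝ) * xi w ε - P w ε k|
    = Q w ε k * |xi w ε - (P w ε k : ℝ) / Q w ε k| := by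
  have h1 := Q_pos ε hw k
  have e : (Q w ε k : ℝ) * xi w ε - P w ε k = Q w ε k * (xi w ε - (P w ε k : ℝ) / Q w ε k) := by
    field_simp
  rw [e, abs_mul, abs_of_pos h1]

lemma L_ge (k : ℕ) : 3 / 4 ≤ |(Q w ε k : ℝ) * xi w ε - P w ε k| * Q w ε (k + 1) := by
  rw [abs_L_eq ε hw]
  have h1 := Q_pos ε hw k
  have h2 := Q_pos ε hw (k + 1)
  have h3 := xi_sub_ge ε hw k
  have h4 : f w ε k * (Q w ε k * Q w ε (k + 1)) = 1 := by
    unfold f
    field_simp
  have h5 := mul_le_mul_of_nonneg_right h3 (mul_pos h1 h2).le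
  nlinarith

lemma L_le (k : ℕ) : |(Q w ε k : ℝ) * xi w ε - P w ε k| * Q w ε (k + 1) ≤ 1 := by
  rw [abs_L_eq ε hw]
  have h1 := Q_pos ε hw k
  have h2 := Q_pos ε hw (k + 1)
  have h3 := xi_sub_le ε hw k
  have h4 : f w ε k * (Q w ε k * Q w ε (k + 1)) = 1 := by
    unfold f
    field_simp
  have h5 := mul_le_mul_of_nonneg_right h3 (mul_pos h1 h2).le
  nlinarith

/-- The system of approximations of the number. -/
noncomputable def sys : Sys w where
  q := Q w ε
  p := P w ε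
  ξ := xi w ε
  c := Real.log 7
  hq k := (inv ε hw k).2.2.1
  hp0 k := (inv ε hw k).2.2.2.2.2.1
  hpq k := (inv ε hw k).2.2.2.2.2.2.1
  hco k := by
    have h := (inv ε hw k).2.2.2.2.2.2.2
    refine ⟨(-1) ^ k * Q' w ε k, -(-1) ^ k * P' w ε k, ?_⟩
    have h1 : ((-1:ℤ) ^ k) * (-1) ^ k = 1 := by
      rw [← mul_pow]
      norm_num
    calc (-1) ^ k * Q' w ε k * P w ε k + -(-1) ^ k * P' w ε k * Q w ε k
        = (-1) ^ k * (P w ε k * Q' w ε k - P' w ε k * Q w ε k) := by ring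
      _ = 1 := by rw [h, h1]
  hξ0 := by
    have h := xi_sub_le ε hw 0
    rw [P_zero, Q_zero] at h
    have h1 : f w ε 0 ≤ 1 / 2 := by
      unfold f
      have h2 := two_le_Q ε hw 0
      have h3 := two_le_Q ε hw (0 + 1)
      rw [div_le_div_iff₀ (by positivity) (by norm_num)]
      nlinarith
    rw [abs_le] at h
    push_cast at h
    linarith [h.1]
  hξ1 := by
    have h := xi_sub_le ε hw 0
    rw [P_zero, Q_zero] at h
    have h1 : f w ε 0 ≤ 1 / 2 := by
      unfold f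
      have h2 := two_le_Q ε hw 0
      have h3 := two_le_Q ε hw (0 + 1)
      rw [div_le_div_iff₀ (by positivity) (by norm_num)]
      nlinarith
    rw [abs_le] at h
    push_cast at h
    linarith [h.2]
  hc := Real.log_nonneg (by norm_num)
  grow1 k := by
    have h1 := Q_pos ε hw k
    rw [← Real.log_rpow h1]
    apply Real.log_le_log (Real.rpow_pos_of_pos h1 w)
    rw [Q_succ]
    push_cast
    have h2 : (0:ℝ) ≤ Q' w ε k := by
      have := (inv ε hw k).1
      exact_mod_cast (by omega : (0:ℤ) ≤ Q' w ε k)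
    have h3 : (Q w ε k : ℝ) ^ (w - 1) ≤ pq w (ε k) (Q w ε k) := by
      have h4 := Int.le_ceil ((Q w ε k : ℝ) ^ (w - 1))
      have h5 := ceil_ge hw (inv ε hw k).2.2.1
      have h6 : ⌈(Q w ε k : ℝ) ^ (w - 1)⌉ ≤ pq w (ε k) (Q w ε k) := by
        unfold pq
        split <;> omega
      have h7 : (⌈(Q w ε k : ℝ) ^ (w - 1)⌉ : ℝ) ≤ pq w (ε k) (Q w ε k) := by exact_mod_cast h6
      linarith
    have h8 : (Q w ε k : ℝ) ^ w = (Q w ε k : ℝ) ^ (w - 1) * Q w ε k := by
      rw [← Real.rpow_add_one h1.ne']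
      congr 1
      ring
    rw [h8]
    have h9 := mul_le_mul_of_nonneg_right h3 h1.le
    linarith
  grow2 k := by
    have h1 := Q_pos ε hw k
    have h1' := two_le_Q ε hw k
    have h0 := Q_pos ε hw (k + 1)
    have h8 : (Q w ε k : ℝ) ^ w = (Q w ε k : ℝ) ^ (w - 1) * Q w ε k := by
      rw [← Real.rpow_add_one h1.ne']
      congr 1
      ring
    have h10 : (1:ℝ) ≤ (Q w ε k : ℝ) ^ (w - 1) := Real.one_le_rpow (by linarith) (by linarith)
    have h11 : (Q w ε (k + 1) : ℝ) ≤ (Q w ε k : ℝ) ^ w * 7 := by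
      rw [Q_succ, h8]
      push_cast
      have h2 : (Q' w ε k : ℝ) ≤ Q w ε k := by exact_mod_cast (inv ε hw k).2.1
      have h3 : (pq w (ε k) (Q w ε k) : ℝ) ≤ 3 * ((Q w ε k : ℝ) ^ (w - 1) + 1) := by
        have h4 := Int.ceil_lt_add_one ((Q w ε k : ℝ) ^ (w - 1))
        have h5 := ceil_ge hw (inv ε hw k).2.2.1
        have h6 : pq w (ε k) (Q w ε k) ≤ 3 * ⌈(Q w ε k : ℝ) ^ (w - 1)⌉ := by
          unfold pq
          split <;> omega
        have h7 : (pq w (ε k) (Q w ε k) : ℝ) ≤ 3 * (⌈(Q w ε k : ℝ) ^ (w - 1)⌉ : ℝ) := by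
          exact_mod_cast h6
        linarith
      have h9 := mul_le_mul_of_nonneg_right h3 h1.le
      nlinarith
    have h12 := Real.log_le_log h0 h11
    rw [Real.log_mul (Real.rpow_pos_of_pos h1 w).ne' (by norm_num), Real.log_rpow h1] at h12
    exact h12
  hL k := by
    have h := L_ge ε hw k
    intro h0
    rw [h0, abs_zero, zero_mul] at h
    norm_num at h
  L1 k := L_le ε hw k
  L2 k := by
    have h := L_ge ε hw k
    have h2 := Q_pos ε hw (k + 1)
    have h3 : 0 < |(Q w ε k : ℝ) * xi w ε - P w ε k| := by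
      by_contra hcon
      push Not at hcon
      have := mul_nonpos_of_nonpos_of_nonneg hcon h2.le
      linarith
    have h4 := Real.log_le_log (by norm_num) h
    rw [Real.log_mul h3.ne' h2.ne'] at h4
    have h5 : -Real.log 7 ≤ Real.log (3 / 4) := by
      rw [← Real.log_inv]
      exact Real.log_le_log (by norm_num) (by norm_num)
    linarith

omit hw in
lemma st_congr {ε ε' : ℕ → Bool} {k : ℕ} (h : ∀ i < k, ε i = ε' i) : st w ε k = st w ε' k := by
  induction k with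
  | zero => rfl
  | succ k ih =>
    have h1 := ih fun i hi => h i (by omega)
    simp only [st]
    rw [h1, h k (by omega)]

lemma xi_ne_of {ε ε' : ℕ → Bool} {k : ℕ} (h : ∀ i < k, ε i = ε' i) (h1 : ε k = false)
    (h2 : ε' k = true) : xi w ε ≠ xi w ε' := by
  intro heq
  have hst := st_congr (w := w) h
  have hQ : Q w ε' k = Q w ε k := by unfold Q; rw [hst]
  have hP : P w ε' k = P w ε k := by unfold P; rw [hst]
  have hQ' : Q' w ε' k = Q' w ε k := by unfold Q'; rw [hst]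
  have h3 := L_ge ε hw k
  have h4 := L_le ε' hw k
  rw [hQ, hP, ← heq] at h4
  have h5 : 0 < |(Q w ε k : ℝ) * xi w ε - P w ε k| := by
    have h2 := Q_pos ε hw (k + 1)
    by_contra hcon
    push Not at hcon
    have := mul_nonpos_of_nonpos_of_nonneg hcon h2.le
    linarith
  have h6 : 2 * (Q w ε (k + 1) : ℝ) ≤ Q w ε' (k + 1) := by
    have : 2 * Q w ε (k + 1) ≤ Q w ε' (k + 1) := by
      rw [Q_succ, Q_succ, hQ, hQ', h1, h2]
      obtain ⟨i1, i2, i3, -⟩ := inv ε hw k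
      have hc := ceil_ge hw i3
      unfold pq
      simp only [Bool.false_eq_true, if_false, if_true]
      nlinarith
    exact_mod_cast this
  have h7 := mul_le_mul_of_nonneg_left h6 h5.le
  nlinarith

lemma xi_injective : Function.Injective (xi w) := by
  intro ε ε' heq
  by_contra hne
  have hex : ∃ k, ε k ≠ ε' k := by
    by_contra hcon
    push Not at hcon
    exact hne (funext hcon)
  classical
  have h1 := Nat.find_spec hex
  have h2 : ∀ i < Nat.find hex, ε i = ε' i := fun i hi => by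
    have := Nat.find_min hex hi
    rwa [not_not] at this
  set k := Nat.find hex
  rcases hb : ε k with _ | _
  · have hb' : ε' k = true := by
      cases h3 : ε' k
      · exact absurd (hb.trans h3.symm) h1
      · rfl
    exact xi_ne_of hw h2 hb hb' heq
  · have hb' : ε' k = false := by
      cases h3 : ε' k
      · rfl
      · exact absurd (hb.trans h3.symm) h1
    exact xi_ne_of hw (fun i hi => (h2 i hi).symm) hb' hb heq.symm

/-- There is a transcendental number with regularly growing denominators. -/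
theorem exists_sys : ∃ S : Sys w, Transcendental ℚ S.ξ := by
  by_contra hcon
  push Not at hcon
  have h1 : Set.range (xi w) ⊆ {x : ℝ | IsAlgebraic ℚ x} := by
    rintro _ ⟨ε, rfl⟩
    have := hcon (sys ε hw)
    unfold Transcendental at this
    rw [not_not] at this
    exact this
  have h2 : (Set.range (xi w)).Countable := (Algebraic.countable ℚ ℝ).mono h1
  have h3 : Countable (Set.range (xi w)) := h2.to_subtype
  have h4 : Countable (ℕ → Bool) :=
    (Equiv.ofInjective (xi w) (xi_injective hw)).injective.countable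
  rw [← Cardinal.mk_le_aleph0_iff] at h4
  simp at h4
  exact absurd h4 (not_le.2 Cardinal.aleph0_lt_continuum)

end

end Pool.Agent.LamSpec
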