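import Pool.Agent.Lib.LamSpec.Main
import Pool.Agent.Lib.LamSpec.Constr

/-!
# The exponent `λ_n`
-/

set_option autoImplicit false

open Finset

namespace Pool.Agent.LamSpec

/-- The integer points `(x_0, …, x_n)`, `x_0 ≠ 0`, with
`max_{1 ≤ j ≤ n} |x_0 ξ^j - x_j| ≤ |x_0|^{-l}`. -/
def pts (n : ℕ) (ξ l : ℝ) : Set (Fin (n + 1) → ℤ) :=
  {x | x 0 ≠ 0 ∧ ∀ j : Fin n, |(x 0 : ℝ) * ξ ^ ((j : ℕ) + 1) - x j.succ| ≤ |(x 0 : ℝ)| ^ (-l)}

/-- The exponent `λ_n(ξ)`. -/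
noncomputable def lam (n : ℕ) (ξ : ℝ) : EReal :=
  sSup {l : EReal | ∃ r : ℝ, l = r ∧ (pts n ξ r).Infinite}

lemma infinite_of_unbounded {n : ℕ} {T : Set (Fin (n + 1) → ℤ)}
    (h : ∀ B : ℤ, ∃ x ∈ T, B < x 0) : T.Infinite := by
  intro hfin
  have h1 : ((fun x : Fin (n + 1) → ℤ => x 0) '' T).Finite := hfin.image _
  obtain ⟨B, hB⟩ := h1.bddAbove
  obtain ⟨x, hx, hlt⟩ := h B
  have := hB ⟨x, hx, rfl⟩
  simp only at this
  omega

/-- The point of the rational normal curve at `p/q`. -/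
def pt (n : ℕ) (q p : ℤ) : Fin (n + 1) → ℤ := fun j => q ^ (n - (j : ℕ)) * p ^ (j : ℕ)

lemma pt_err {n : ℕ} (ξ : ℝ) {q p : ℤ} (hq : 1 ≤ q) (h : |(q : ℝ) * ξ - p| ≤ 1) {j : ℕ}
    (hj1 : 1 ≤ j) (hj : j ≤ n) :
    |((q ^ n : ℤ) : ℝ) * ξ ^ j - ((q ^ (n - j) * p ^ j : ℤ) : ℝ)|
      ≤ n * (|ξ| + 1) ^ n * (q : ℝ) ^ (n - 1) * |(q : ℝ) * ξ - p| := by
  have hq1 : (1:ℝ) ≤ q := by exact_mod_cast hq
  have hq0 : (0:ℝ) ≤ q := by linarith
  have hξ : 0 ≤ |ξ| := abs_nonneg ξ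
  have e : ((q ^ n : ℤ) : ℝ) * ξ ^ j - ((q ^ (n - j) * p ^ j : ℤ) : ℝ)
      = (q:ℝ) ^ (n - j) * (((q:ℝ) * ξ) ^ j - (p:ℝ) ^ j) := by
    push_cast
    have h1 : (q:ℝ) ^ n = q ^ (n - j) * q ^ j := by
      rw [← pow_add]
      congr 1
      omega
    rw [h1, mul_pow]
    ring
  rw [e, abs_mul, abs_of_nonneg (pow_nonneg hq0 _)]
  have h2 := abs_pow_sub_pow_le ((q:ℝ) * ξ) (p:ℝ) j
  have hM : max |(q:ℝ) * ξ| |(p:ℝ)| ≤ q * (|ξ| + 1) := by
    apply max_le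
    · rw [abs_mul, abs_of_nonneg hq0]
      nlinarith
    · have : |(p:ℝ)| ≤ |(q:ℝ) * ξ| + |(q : ℝ) * ξ - p| := by
        have e2 : (p:ℝ) = q * ξ - (q * ξ - p) := by ring
        calc |(p:ℝ)| = |q * ξ - (q * ξ - p)| := by rw [← e2]
          _ ≤ _ := abs_sub _ _
      rw [abs_mul, abs_of_nonneg hq0] at this
      nlinarith
  have hM0 : 0 ≤ max |(q:ℝ) * ξ| |(p:ℝ)| := le_max_of_le_left (abs_nonneg _)
  have h3 : max |(q:ℝ) * ξ| |(p:ℝ)| ^ (j - 1) ≤ (q:ℝ) ^ (j - 1) * (|ξ| + 1) ^ n := by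
    calc max |(q:ℝ) * ξ| |(p:ℝ)| ^ (j - 1) ≤ (q * (|ξ| + 1)) ^ (j - 1) :=
          pow_le_pow_left₀ hM0 hM _
      _ = (q:ℝ) ^ (j - 1) * (|ξ| + 1) ^ (j - 1) := mul_pow _ _ _
      _ ≤ (q:ℝ) ^ (j - 1) * (|ξ| + 1) ^ n := by
          apply mul_le_mul_of_nonneg_left _ (pow_nonneg hq0 _)
          exact pow_le_pow_right₀ (by linarith) (by omega)
  have hjn : (j:ℝ) ≤ n := by exact_mod_cast hj
  have hj0 : (0:ℝ) ≤ j := Nat.cast_nonneg j
  have hd0 : 0 ≤ |(q : ℝ) * ξ - p| := abs_nonneg _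
  have h4 : (q:ℝ) ^ (n - j) * (q:ℝ) ^ (j - 1) = (q:ℝ) ^ (n - 1) := by
    rw [← pow_add]
    congr 1
    omega
  calc (q:ℝ) ^ (n - j) * |((q:ℝ) * ξ) ^ j - (p:ℝ) ^ j|
      ≤ (q:ℝ) ^ (n - j) * (|(q:ℝ) * ξ - p| * j * max |(q:ℝ) * ξ| |(p:ℝ)| ^ (j - 1)) :=
        mul_le_mul_of_nonneg_left h2 (pow_nonneg hq0 _)
    _ ≤ (q:ℝ) ^ (n - j) * (|(q:ℝ) * ξ - p| * n * ((q:ℝ) ^ (j - 1) * (|ξ| + 1) ^ n)) := by
        gcongr
    _ = n * (|ξ| + 1) ^ n * ((q:ℝ) ^ (n - j) * (q:ℝ) ^ (j - 1)) * |(q : ℝ) * ξ - p| := by ring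
    _ = n * (|ξ| + 1) ^ n * (q : ℝ) ^ (n - 1) * |(q : ℝ) * ξ - p| := by rw [h4]

lemma pt_mem {n : ℕ} {ξ l : ℝ} {q p : ℤ} (hq : 1 ≤ q) (h : |(q : ℝ) * ξ - p| ≤ 1)
    (hle : n * (|ξ| + 1) ^ n * (q : ℝ) ^ (n - 1) * |(q : ℝ) * ξ - p| ≤ ((q:ℝ) ^ n) ^ (-l)) :
    pt n q p ∈ pts n ξ l := by
  have e0 : pt n q p 0 = q ^ n := by simp [pt]
  refine ⟨?_, fun j => ?_⟩
  · rw [e0]
    exact pow_ne_zero _ (by omega)
  · rw [e0]
    have hq1 : (1:ℝ) ≤ q := by exact_mod_cast hq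
    have e1 : |((q ^ n : ℤ) : ℝ)| = (q:ℝ) ^ n := by
      push_cast
      exact abs_of_nonneg (pow_nonneg (by linarith) _)
    rw [e1]
    have h1 := pt_err (n := n) ξ hq h (j := (j:ℕ) + 1) (by omega) (by omega)
    have e2 : (pt n q p j.succ : ℤ) = q ^ (n - ((j:ℕ) + 1)) * p ^ ((j:ℕ) + 1) := by
      simp [pt]
    rw [e2]
    exact h1.trans hle

/-- The set of the good points is finite if their first coordinates are bounded. -/
lemma finite_of_bounded {n : ℕ} {ξ l : ℝ} (hl : 0 ≤ l) (X : ℝ)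
    (h : ∀ x ∈ pts n ξ l, |(x 0 : ℝ)| ≤ X) : (pts n ξ l).Finite := by
  set M : ℤ := ⌈(|X| * (|ξ| + 1) ^ n + 1 : ℝ)⌉ with hM
  have hMge : |X| * (|ξ| + 1) ^ n + 1 ≤ M := Int.le_ceil _
  refine (Set.finite_Icc (fun _ : Fin (n + 1) => -M) (fun _ => M)).subset fun x hx => ?_
  have hx0 := h x hx
  have hξ : 0 ≤ |ξ| := abs_nonneg ξ
  have hX0 : |(x 0 : ℝ)| ≤ |X| := hx0.trans (le_abs_self X)
  have hX1 : (1:ℝ) ≤ |(x 0 : ℝ)| := by exact_mod_cast Int.one_le_abs hx.1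
  have hone : (1:ℝ) ≤ (|ξ| + 1) ^ n := one_le_pow₀ (by linarith)
  have key : ∀ j : Fin (n + 1), |x j| ≤ M := by
    intro j
    have : |(x j : ℝ)| ≤ M := by
      refine Fin.cases ?_ (fun j => ?_) j
      · have : |X| * 1 ≤ |X| * (|ξ| + 1) ^ n := mul_le_mul_of_nonneg_left hone (abs_nonneg X)
        linarith
      · have h1 := hx.2 j
        have h2 : |(x 0 : ℝ)| ^ (-l) ≤ 1 := Real.rpow_le_one_of_one_le_of_nonpos hX1 (by linarith)
        have h3 : |(x 0 : ℝ) * ξ ^ ((j : ℕ) + 1)| ≤ |X| * (|ξ| + 1) ^ n := by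
          rw [abs_mul, abs_pow]
          apply mul_le_mul hX0 _ (by positivity) (abs_nonneg X)
          calc |ξ| ^ ((j:ℕ) + 1) ≤ (|ξ| + 1) ^ ((j:ℕ) + 1) :=
                pow_le_pow_left₀ hξ (by linarith) _
            _ ≤ (|ξ| + 1) ^ n := pow_le_pow_right₀ (by linarith) (by omega)
        calc |(x j.succ : ℝ)| = |(x 0 : ℝ) * ξ ^ ((j : ℕ) + 1)
              - ((x 0 : ℝ) * ξ ^ ((j : ℕ) + 1) - x j.succ)| := by congr 1; ring
          _ ≤ |(x 0 : ℝ) * ξ ^ ((j : ℕ) + 1)|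
              + |(x 0 : ℝ) * ξ ^ ((j : ℕ) + 1) - x j.succ| := abs_sub _ _
          _ ≤ M := by linarith
    exact_mod_cast this
  rw [Set.mem_Icc]
  refine ⟨fun j => ?_, fun j => ?_⟩
  · have := abs_le.1 (key j)
    exact this.1
  · have := abs_le.1 (key j)
    exact this.2

/-- **The value of `λ_n`** at a number with regularly growing denominators of convergents. -/
theorem lam_eq {w : ℝ} (S : Sys w) {n : ℕ} (hn : 1 ≤ n) (hw : n < w) (hw1 : 1 ≤ w * (w - n)) :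
    lam n S.ξ = (((w + 1 - n) / n : ℝ) : EReal) := by
  have hnR : (1:ℝ) ≤ n := by exact_mod_cast hn
  have hn0 : (0:ℝ) < n := by linarith
  have hw1' : 1 < w := by linarith
  have hw0 : 0 < w := by linarith
  set θ := (w + 1 - n) / n with hθ
  have hθn : θ * n = w + 1 - n := by
    rw [hθ]
    field_simp
  have hθ0 : 0 < θ := by
    rw [hθ]
    apply div_pos (by linarith) hn0
  have h1 : 1 ≤ θ * (w - 1) := by
    have h : n * 1 ≤ n * (θ * (w - 1)) := by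
      have e : (n:ℝ) * (θ * (w - 1)) = (w + 1 - n) * (w - 1) := by rw [← hθn]; ring
      rw [e]
      nlinarith
    exact le_of_mul_le_mul_left h hn0
  have h2 : 1 + 1 / w ≤ θ * n := by
    rw [hθn]
    have : 1 / w ≤ w - n := by
      rw [div_le_iff₀ hw0]
      linarith
    linarith
  have h3 : ∀ j : ℕ, 1 ≤ j → j < n → w + 1 - n + j ≤ θ * (n - j + w * j) := by
    intro j _ _
    have e : θ * (n - j + w * j) = (w + 1 - n) + j * (θ * (w - 1)) := by rw [← hθn]; ring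
    rw [e]
    have : (j:ℝ) * 1 ≤ j * (θ * (w - 1)) := mul_le_mul_of_nonneg_left h1 (Nat.cast_nonneg j)
    linarith
  have h4 : w + 1 ≤ (1 + θ) * n := by
    have : (1 + θ) * n = n + θ * n := by ring
    rw [this, hθn]
    linarith
  apply le_antisymm
  · -- the upper bound
    apply sSup_le
    rintro _ ⟨r, rfl, hr⟩
    rw [EReal.coe_le_coe_iff]
    by_contra hcon
    push Not at hcon
    obtain ⟨X0, hX0⟩ := S.main hn hw h1 h2 h3 h4
    apply hr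
    refine finite_of_bounded (by linarith) (max (X0:ℝ) (Real.exp (S.K n θ / (r - θ)))) fun x hx => ?_
    rcases le_or_gt |(x 0 : ℝ)| X0 with hle | hlt
    · exact hle.trans (le_max_left _ _)
    · refine le_trans ?_ (le_max_right _ _)
      have hx1 : (1:ℝ) ≤ |(x 0 : ℝ)| := by exact_mod_cast Int.one_le_abs hx.1
      have hx0 : (0:ℝ) < |(x 0 : ℝ)| := by linarith
      set x' : ℕ → ℤ := fun i => if h : i < n + 1 then x ⟨i, h⟩ else 0 with hx'
      have e0 : x' 0 = x 0 := by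
        rw [hx']
        simp
      have hE : 0 < |(x 0 : ℝ)| ^ (-r) := Real.rpow_pos_of_pos hx0 _
      have hN : Near S.ξ x' n (x' 0) (|(x 0 : ℝ)| ^ (-r)) := by
        intro i hi
        rw [e0]
        rcases Nat.eq_zero_or_pos i with h0 | h0
        · rw [h0, e0]
          simp [hE.le]
        · obtain ⟨i', rfl⟩ : ∃ i', i = i' + 1 := ⟨i - 1, by omega⟩
          have e1 : x' (i' + 1) = x (⟨i', by omega⟩ : Fin n).succ := by
            rw [hx']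
            simp only
            rw [dif_pos (by omega)]
            rfl
          rw [e1, abs_sub_comm]
          exact hx.2 ⟨i', by omega⟩
      have hkey := hX0 x' _ hE hN (by
        rw [e0]
        have : (X0:ℝ) ≤ |(x 0 : ℝ)| := hlt.le
        exact_mod_cast this)
      rw [Real.log_rpow hx0, e0] at hkey
      have h5 : Real.log |(x 0 : ℝ)| ≤ S.K n θ / (r - θ) := by
        rw [le_div_iff₀ (by linarith)]
        linarith
      calc |(x 0 : ℝ)| = Real.exp (Real.log |(x 0 : ℝ)|) := (Real.exp_log hx0).symm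
        _ ≤ _ := Real.exp_le_exp.2 h5
  · -- the lower bound
    by_contra hcon
    rw [not_le] at hcon
    obtain ⟨r, hr1, hr2⟩ := EReal.lt_iff_exists_real_btwn.1 hcon
    rw [EReal.coe_lt_coe_iff] at hr2
    suffices hinf : (pts n S.ξ r).Infinite by
      have hmem : (r : EReal) ∈ {l : EReal | ∃ r : ℝ, l = r ∧ (pts n S.ξ r).Infinite} :=
        ⟨r, rfl, hinf⟩
      exact absurd (le_sSup hmem) (not_le.2 hr1)
    refine infinite_of_unbounded fun B => ?_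
    set C : ℝ := n * (|S.ξ| + 1) ^ n with hC
    have hC0 : 0 < C := by
      rw [hC]
      positivity
    obtain ⟨k0, hk0⟩ := S.l_tendsto hw1' (Real.log C / (n * (θ - r)))
    obtain ⟨k1, hk1⟩ := S.l_tendsto hw1' (Real.log (|(B:ℝ)| + 1))
    set k := max k0 k1 with hk
    have hq := S.q_pos k
    have hq1 := S.one_lt_q k
    have hL : 0 < |(S.q k : ℝ) * S.ξ - S.p k| := S.abs_L_pos k
    have hqk : (1:ℤ) ≤ S.q k := by linarith [S.hq k]
    have hL1 : |(S.q k : ℝ) * S.ξ - S.p k| ≤ 1 := by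
      have h5 := S.L1 k
      have h6 := S.one_lt_q (k + 1)
      have h7 := abs_nonneg ((S.q k : ℝ) * S.ξ - S.p k)
      nlinarith
    refine ⟨pt n (S.q k) (S.p k), pt_mem hqk hL1 ?_, ?_⟩
    · have h5 := hk0 k (le_max_left _ _)
      rw [div_le_iff₀ (mul_pos hn0 (by linarith))] at h5
      have h6 : Real.log (C * (S.q k : ℝ) ^ (n - 1) * |(S.q k : ℝ) * S.ξ - S.p k|)
          ≤ Real.log (((S.q k : ℝ) ^ n) ^ (-r)) := by
        rw [Real.log_mul (by positivity) hL.ne', Real.log_mul hC0.ne' (by positivity),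
          Real.log_pow, Real.log_rpow (by positivity), Real.log_pow, Nat.cast_sub hn]
        have h7 := S.log_L_le k
        have h8 := S.l_succ_ge k
        unfold Sys.L at h7
        unfold Sys.l at h5 h7 h8
        push_cast
        have h9 : n * (θ - r) * Real.log (S.q k) = (w + 1 - n) * Real.log (S.q k)
            - n * r * Real.log (S.q k) := by
          rw [← hθn]
          ring
        nlinarith
      have h10 : 0 < ((S.q k : ℝ) ^ n) ^ (-r) := Real.rpow_pos_of_pos (by positivity) _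
      exact (Real.log_le_log_iff (by positivity) h10).1 h6
    · have h5 := hk1 k (le_max_right _ _)
      unfold Sys.l at h5
      have h6 : |(B:ℝ)| + 1 ≤ S.q k :=
        (Real.log_le_log_iff (by positivity) hq).1 h5
      have h7 : (S.q k : ℝ) ≤ (S.q k : ℝ) ^ n := le_self_pow₀ hq1.le (by omega)
      have h8 : (B:ℝ) < (S.q k : ℝ) ^ n := by linarith [le_abs_self (B:ℝ)]
      have e0 : pt n (S.q k) (S.p k) 0 = S.q k ^ n := by simp [pt]
      rw [e0]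
      exact_mod_cast h8

/-- Liouville numbers. -/
theorem lam_liouville {ξ : ℝ} (hξ : Liouville ξ) {n : ℕ} (hn : 1 ≤ n) : lam n ξ = ⊤ := by
  have hnR : (1:ℝ) ≤ n := by exact_mod_cast hn
  rw [EReal.eq_top_iff_forall_lt]
  intro y
  refine lt_of_lt_of_le (EReal.coe_lt_coe_iff.2 (lt_add_one y)) ?_
  refine le_sSup ⟨y + 1, rfl, ?_⟩
  refine infinite_of_unbounded fun B => ?_
  set r := y + 1 with hr
  set C : ℝ := n * (|ξ| + 1) ^ n with hC
  have hC0 : 0 < C := by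
    rw [hC]
    positivity
  set N : ℕ := n + ⌈n * |r|⌉₊ + 1 with hN
  have hfr := hξ.frequently_exists_num N
  rw [Filter.frequently_atTop] at hfr
  obtain ⟨b, hb, a, hne, hlt⟩ := hfr (max 1 (max ⌈C⌉₊ (B.toNat + 1)))
  have hb1 : 1 ≤ b := le_trans (le_max_left _ _) hb
  have hbC : ⌈C⌉₊ ≤ b := le_trans (le_trans (le_max_left _ _) (le_max_right _ _)) hb
  have hbB : B.toNat + 1 ≤ b := le_trans (le_trans (le_max_right _ _) (le_max_right _ _)) hb
  have hb1R : (1:ℝ) ≤ b := by exact_mod_cast hb1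
  have hb0R : (0:ℝ) < b := by linarith
  have hCb : C ≤ b := (Nat.le_ceil C).trans (by exact_mod_cast hbC)
  have hL : |((b:ℤ):ℝ) * ξ - a| ≤ b / (b:ℝ) ^ N := by
    have e : ((b:ℤ):ℝ) * ξ - a = b * (ξ - a / b) := by
      push_cast
      field_simp
    have e2 : (b:ℝ) / (b:ℝ) ^ N = b * (1 / (b:ℝ) ^ N) := by ring
    rw [e, abs_mul, abs_of_pos hb0R, e2]
    exact mul_le_mul_of_nonneg_left hlt.le hb0R.le
  have hbN : (b:ℝ) ≤ (b:ℝ) ^ N := le_self_pow₀ hb1R (by omega)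
  refine ⟨pt n b a, pt_mem (by exact_mod_cast hb1) ?_ ?_, ?_⟩
  · refine hL.trans ?_
    rw [div_le_one (by positivity)]
    exact hbN
  · push_cast at hL ⊢
    have h1 : C * (b:ℝ) ^ (n - 1) * |(b:ℝ) * ξ - a| ≤ b * (b:ℝ) ^ (n - 1) * (b / (b:ℝ) ^ N) := by
      gcongr
    refine h1.trans ?_
    have h2 : (b:ℝ) * (b:ℝ) ^ (n - 1) * (b / (b:ℝ) ^ N) = (b:ℝ) ^ ((n:ℝ) + 1 - N) := by
      have e1 : (b:ℝ) * (b:ℝ) ^ (n - 1) = (b:ℝ) ^ n := by
        rw [← pow_succ']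
        congr 1
        omega
      rw [e1, Real.rpow_sub hb0R, Real.rpow_add hb0R, Real.rpow_natCast, Real.rpow_natCast,
        Real.rpow_one]
      ring
    rw [h2, ← Real.rpow_natCast (b:ℝ) n, ← Real.rpow_mul hb0R.le]
    apply Real.rpow_le_rpow_of_exponent_le hb1R
    rw [hN]
    push_cast
    have h3 : n * |r| ≤ ⌈n * |r|⌉₊ := Nat.le_ceil _
    have h4 : n * r ≤ n * |r| := mul_le_mul_of_nonneg_left (le_abs_self r) (by linarith)
    linarith
  · have e0 : pt n (b:ℤ) a 0 = (b:ℤ) ^ n := by simp [pt]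
    rw [e0]
    have h1 : (b:ℤ) ≤ (b:ℤ) ^ n := le_self_pow₀ (by exact_mod_cast hb1) (by omega)
    have h2 : B ≤ B.toNat := Int.self_le_toNat B
    have h3 : ((B.toNat + 1 : ℕ) : ℤ) ≤ b := by exact_mod_cast hbB
    push_cast at h3
    linarith

end Pool.Agent.LamSpec
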