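import Pool.Agent.Lib.LamSpec.CaseB

/-!
# Numbers with regularly growing denominators of convergents: all the points
-/

set_option autoImplicit false

open Finset

namespace Pool.Agent.LamSpec

namespace Sys

variable {w : ℝ} (S : Sys w)

/-- The constant in the final estimate. -/
noncomputable def K (n : ℕ) (θ : ℝ) : ℝ := (1 + θ) * (a0 n + (n + 2) * (S.c + 2))

/-- All the points between two levels. -/
lemma main_level {n : ℕ} {θ : ℝ} (hn : 1 ≤ n) (hw : n < w) (h1 : 1 ≤ θ * (w - 1))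
    (h2 : 1 + 1 / w ≤ θ * n)
    (h3 : ∀ j : ℕ, 1 ≤ j → j < n → w + 1 - n + j ≤ θ * (n - j + w * j))
    (h4 : w + 1 ≤ (1 + θ) * n)
    {k : ℕ} {x : ℕ → ℤ} {E : ℝ} (hE : 0 < E) (hN : Near S.ξ x n (x 0) E)
    (hlt : |x 0| < S.q (k + 2) ^ n) (hge : S.q (k + 1) ^ n ≤ |x 0|)
    (hbig : a0 n ≤ (w - n) * S.l (k + 2)) :
    -Real.log E ≤ θ * Real.log |(x 0 : ℝ)| + S.K n θ := by
  have hnR : (1:ℝ) ≤ n := by exact_mod_cast hn
  have hw1 : 1 < w := by linarith
  have hw0 : 0 < w := by linarith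
  have hθ : 0 < θ := by
    by_contra hneg
    push Not at hneg
    have := mul_nonpos_of_nonpos_of_nonneg hneg (by linarith : (0:ℝ) ≤ w - 1)
    linarith
  have hθw : 1 ≤ θ * w := by nlinarith
  have hx0 : x 0 ≠ 0 := by
    intro h
    rw [h, abs_zero] at hge
    have : (0:ℤ) < S.q (k + 1) ^ n := pow_pos (by linarith [S.hq (k + 1)]) n
    omega
  obtain ⟨j, hjn, hdeg, hV⟩ := exists_deg (S.q (k + 1)) (S.p (k + 1))
    (by linarith [S.hq (k + 1)]) n x ⟨0, Nat.zero_le _, hx0⟩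
  rcases Nat.eq_zero_or_pos j with hj0 | hj1
  · -- multiples of the point of the rational normal curve
    subst hj0
    have hD : D (S.q (k + 1)) (S.p (k + 1)) x 0 = 0 := by
      have := hV 1 one_pos hn
      rwa [pow_one] at this
    rw [D_apply, sub_eq_zero, zero_add] at hD
    have hDR : (S.q (k + 1) : ℝ) * x 1 = S.p (k + 1) * x 0 := by exact_mod_cast hD
    have hq := S.q_pos (k + 1)
    have hx0R : (0:ℝ) < |(x 0 : ℝ)| := abs_pos.2 (by exact_mod_cast hx0)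
    have hL := S.abs_L_pos (k + 1)
    have hE1 := hN 1 hn
    rw [pow_one] at hE1
    have hle : |(x 0 : ℝ)| * |S.L (k + 1)| ≤ S.q (k + 1) * E := by
      have e : (x 0 : ℝ) * S.L (k + 1) = -(S.q (k + 1) * ((x 1 : ℝ) - x 0 * S.ξ)) := by
        unfold L
        linear_combination hDR
      rw [← abs_mul, e, abs_neg, abs_mul, abs_of_pos hq]
      exact mul_le_mul_of_nonneg_left hE1 hq.le
    have hlog := Real.log_le_log (mul_pos hx0R hL) hle
    rw [Real.log_mul hx0R.ne' hL.ne', Real.log_mul hq.ne' hE.ne'] at hlog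
    have hL2 := S.log_L_ge (k + 1)
    have g2 := S.l_succ_le (k + 1)
    have hgeR : (S.q (k + 1) : ℝ) ^ n ≤ |(x 0 : ℝ)| := by exact_mod_cast hge
    have hσ : (n:ℝ) * S.l (k + 1) ≤ Real.log |(x 0 : ℝ)| := by
      have := Real.log_le_log (by positivity) hgeR
      rwa [Real.log_pow] at this
    have hc := S.hc
    have ha0 := a0_nonneg n
    have hl := S.l_pos (k + 1)
    have h5 : -Real.log E ≤ -Real.log |(x 0 : ℝ)| + (w + 1) * S.l (k + 1) + 2 * S.c := by
      unfold l at *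
      linarith
    have h6 : (w + 1) * S.l (k + 1) ≤ (1 + θ) * Real.log |(x 0 : ℝ)| := by
      calc (w + 1) * S.l (k + 1) ≤ ((1 + θ) * n) * S.l (k + 1) :=
            mul_le_mul_of_nonneg_right h4 hl.le
        _ = (1 + θ) * (n * S.l (k + 1)) := by ring
        _ ≤ (1 + θ) * Real.log |(x 0 : ℝ)| := mul_le_mul_of_nonneg_left hσ (by linarith)
    have h7 : 2 * S.c ≤ S.K n θ := by
      unfold K
      have h8 : (n + 2) * (S.c + 2) ≤ (1 + θ) * (a0 n + (n + 2) * (S.c + 2)) := by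
        have : 0 ≤ ((n:ℝ) + 2) * (S.c + 2) := by positivity
        nlinarith
      nlinarith
    linarith
  · rcases hjn.lt_or_eq with hjn | rfl
    · exact S.caseA hw hθ.le hθw h3 hE hN hx0 hlt hj1 hjn hdeg hV hbig
    · exact S.caseB hn hw h1 h2 hE hN hx0 hlt hge hdeg hbig

lemma q_mono (hw : 1 ≤ w) : Monotone S.q := by
  refine monotone_nat_of_le_succ fun k => ?_
  have h1 := S.l_succ_ge k
  have h2 := S.l_pos k
  have h3 : S.l k ≤ S.l (k + 1) := by nlinarith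
  unfold l at h3
  have h4 := (Real.log_le_log_iff (S.q_pos k) (S.q_pos (k + 1))).1 h3
  exact_mod_cast h4

/-- **The upper bound.** -/
theorem main {n : ℕ} {θ : ℝ} (hn : 1 ≤ n) (hw : n < w) (h1 : 1 ≤ θ * (w - 1))
    (h2 : 1 + 1 / w ≤ θ * n)
    (h3 : ∀ j : ℕ, 1 ≤ j → j < n → w + 1 - n + j ≤ θ * (n - j + w * j))
    (h4 : w + 1 ≤ (1 + θ) * n) :
    ∃ X0 : ℤ, ∀ (x : ℕ → ℤ) (E : ℝ), 0 < E → Near S.ξ x n (x 0) E → X0 ≤ |x 0| →
      -Real.log E ≤ θ * Real.log |(x 0 : ℝ)| + S.K n θ := by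
  have hnR : (1:ℝ) ≤ n := by exact_mod_cast hn
  have hw1 : 1 < w := by linarith
  obtain ⟨k0, hk0⟩ := S.l_tendsto hw1 (a0 n / (w - n))
  refine ⟨S.q (k0 + 1) ^ n, fun x E hE hN hX => ?_⟩
  have hex : ∃ m, |x 0| < S.q m ^ n := by
    obtain ⟨k1, hk1⟩ := S.l_tendsto hw1 (|(x 0 : ℝ)| + 1)
    refine ⟨k1, ?_⟩
    have h5 := hk1 k1 le_rfl
    have h6 : S.l k1 ≤ S.q k1 := (Real.log_le_sub_one_of_pos (S.q_pos k1)).trans (by linarith)
    have h7 : (S.q k1 : ℝ) ≤ (S.q k1 : ℝ) ^ n := le_self_pow₀ (S.one_lt_q k1).le (by omega)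
    have h8 : |(x 0 : ℝ)| < (S.q k1 : ℝ) ^ n := by linarith
    exact_mod_cast h8
  classical
  have hm := Nat.find_spec hex
  set m := Nat.find hex with hmdef
  have hmk : k0 + 1 < m := by
    by_contra hcon
    push Not at hcon
    have h5 : S.q m ^ n ≤ S.q (k0 + 1) ^ n :=
      pow_le_pow_left₀ (by linarith [S.hq m]) (S.q_mono hw1.le hcon) n
    omega
  obtain ⟨k, hk⟩ : ∃ k, m = k + 2 := ⟨m - 2, by omega⟩
  have hmin := Nat.find_min hex (m := k + 1) (by omega)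
  rw [not_lt] at hmin
  rw [hk] at hm
  refine S.main_level hn hw h1 h2 h3 h4 hE hN hm hmin ?_
  have h5 := hk0 (k + 2) (by omega)
  rw [div_le_iff₀ (by linarith)] at h5
  linarith

end Sys

end Pool.Agent.LamSpec
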