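import Pool.Agent.Lib.LamSpec.Ops

/-!
# Points near the Veronese curve
-/

set_option autoImplicit false

open Finset

namespace Pool.Agent.LamSpec

/-- The point `z` is within `E` of `A (1, ξ, …, ξ^m)`. -/
def Near (ξ : ℝ) (z : ℕ → ℤ) (m : ℕ) (A E : ℝ) : Prop := ∀ i ≤ m, |(z i : ℝ) - A * ξ ^ i| ≤ E

lemma Near.step {ξ : ℝ} {z : ℕ → ℤ} {m : ℕ} {A E : ℝ} (h : Near ξ z (m + 1) A E) {q p : ℤ}
    (hp0 : 0 ≤ p) (hpq : p ≤ q) : Near ξ (D q p z) m (A * (q * ξ - p)) (2 * q * E) := by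
  intro i hi
  have h1 := h i (by omega)
  have h2 := h (i + 1) (by omega)
  have hp0' : (0:ℝ) ≤ p := by exact_mod_cast hp0
  have hpq' : (p:ℝ) ≤ q := by exact_mod_cast hpq
  have hE : 0 ≤ E := (abs_nonneg _).trans h1
  have e : ((D q p z i : ℤ) : ℝ) - A * (q * ξ - p) * ξ ^ i
      = q * ((z (i + 1) : ℝ) - A * ξ ^ (i + 1)) - p * ((z i : ℝ) - A * ξ ^ i) := by
    rw [D_apply]
    push_cast
    ring
  rw [e]
  calc |q * ((z (i + 1) : ℝ) - A * ξ ^ (i + 1)) - p * ((z i : ℝ) - A * ξ ^ i)|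
      ≤ |q * ((z (i + 1) : ℝ) - A * ξ ^ (i + 1))| + |p * ((z i : ℝ) - A * ξ ^ i)| := abs_sub _ _
    _ = q * |(z (i + 1) : ℝ) - A * ξ ^ (i + 1)| + p * |(z i : ℝ) - A * ξ ^ i| := by
        rw [abs_mul, abs_mul, abs_of_nonneg hp0', abs_of_nonneg (hp0'.trans hpq')]
    _ ≤ q * E + p * E := by
        have : (0:ℝ) ≤ q := hp0'.trans hpq'
        gcongr
    _ ≤ 2 * q * E := by nlinarith

lemma Near.pow {ξ : ℝ} {q p : ℤ} (hp0 : 0 ≤ p) (hpq : p ≤ q) (a : ℕ) :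
    ∀ {z : ℕ → ℤ} {m : ℕ} {A E : ℝ}, Near ξ z m A E → a ≤ m →
      Near ξ ((D q p ^ a) z) (m - a) (A * (q * ξ - p) ^ a) ((2 * q) ^ a * E) := by
  induction a with
  | zero =>
    intro z m A E h _
    simpa using h
  | succ a ih =>
    intro z m A E h ha
    obtain ⟨m, rfl⟩ : ∃ m', m = m' + 1 := ⟨m - 1, by omega⟩
    have h1 := ih (h.step hp0 hpq) (by omega : a ≤ m)
    rw [D_pow_succ, Nat.add_sub_add_right]
    have e1 : A * (q * ξ - p) * (q * ξ - p) ^ a = A * (q * ξ - p) ^ (a + 1) := by ring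
    have e2 : (2 * (q:ℝ)) ^ a * (2 * q * E) = (2 * q) ^ (a + 1) * E := by ring
    rwa [e1, e2] at h1

lemma Near.abs_le {ξ : ℝ} (h0 : 0 ≤ ξ) (h1 : ξ ≤ 1) {z : ℕ → ℤ} {m : ℕ} {A E : ℝ}
    (h : Near ξ z m A E) {i : ℕ} (hi : i ≤ m) : |(z i : ℝ)| ≤ |A| + E := by
  have h2 := h i hi
  have h3 : |A * ξ ^ i| ≤ |A| := by
    rw [abs_mul, abs_of_nonneg (pow_nonneg h0 i)]
    exact mul_le_of_le_one_right (abs_nonneg _) (pow_le_one₀ h0 h1)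
  calc |(z i : ℝ)| = |A * ξ ^ i + ((z i : ℝ) - A * ξ ^ i)| := by congr 1; ring
    _ ≤ |A * ξ ^ i| + |(z i : ℝ) - A * ξ ^ i| := abs_add_le _ _
    _ ≤ |A| + E := by linarith

lemma Near.mono {ξ : ℝ} {z : ℕ → ℤ} {m m' : ℕ} {A E : ℝ} (h : Near ξ z m A E) (hm : m' ≤ m) :
    Near ξ z m' A E := fun i hi => h i (by omega)

/-- Lemma A for a point near the curve. -/
lemma lemA_near {ξ : ℝ} (h0 : 0 ≤ ξ) (h1 : ξ ≤ 1) {q p : ℤ} (hq : 0 < q) (hp : 0 ≤ p)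
    (hco : IsCoprime p q) {n m j : ℕ} (hmn : m ≤ n) (hj : j ≤ m) {z : ℕ → ℤ} (hV : V q p m j z)
    (hz : ∃ i ≤ m, z i ≠ 0) {A E : ℝ} (h : Near ξ z m A E) :
    (q:ℝ) ^ (m - j) ≤ (n + 2) ^ n * (|A| + E) := by
  obtain ⟨i, hi, hle⟩ := lemA hq hp hco hj hV hz
  have h2 := h.abs_le h0 h1 hi
  have h3 : ((q ^ (m - j) : ℤ) : ℝ) ≤ (((m + 2 : ℤ) ^ m * |z i| : ℤ) : ℝ) := by exact_mod_cast hle
  push_cast at h3
  have h4 : ((m:ℝ) + 2) ^ m ≤ ((n:ℝ) + 2) ^ n := by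
    have h5 : ((m:ℝ) + 2) ^ m ≤ ((n:ℝ) + 2) ^ m := by
      have : (m:ℝ) ≤ n := by exact_mod_cast hmn
      gcongr
    exact h5.trans (pow_le_pow_right₀ (by linarith [(Nat.cast_nonneg n : (0:ℝ) ≤ n)]) hmn)
  have h6 : 0 ≤ |A| + E := (abs_nonneg _).trans h2
  calc (q:ℝ) ^ (m - j) ≤ (m + 2) ^ m * |(z i : ℝ)| := h3
    _ ≤ (m + 2) ^ m * (|A| + E) := by gcongr
    _ ≤ (n + 2) ^ n * (|A| + E) := by gcongr

/-- If `T ≤ A (U + W)` and `U` is small then `W` is large. -/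
lemma log_ge_of_alt {A T U W : ℝ} (hA : 0 < A) (hT : 0 < T) (h : T ≤ A * (U + W))
    (hU : 2 * A * U ≤ T) : Real.log T - Real.log (2 * A) ≤ Real.log W := by
  have h1 : T ≤ 2 * A * W := by nlinarith
  have hW : 0 < W := by
    by_contra hcon
    push Not at hcon
    nlinarith
  have h2 := Real.log_le_log hT h1
  rw [Real.log_mul (by positivity) hW.ne'] at h2
  linarith

/-- The final comparison. -/
lemma finish {θ s e l σ K1 K2 y B : ℝ} (hθ : 0 ≤ θ) (hl : 0 ≤ l) (hse : e ≤ θ * s)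
    (hσ : s * l - K2 ≤ σ) (hy : y ≤ e * l + K1) (h1 : K1 ≤ B) (h2 : K2 ≤ B) :
    y ≤ θ * σ + (1 + θ) * B := by
  have h3 : e * l ≤ θ * s * l := mul_le_mul_of_nonneg_right hse hl
  have h4 : θ * (s * l - K2) ≤ θ * σ := mul_le_mul_of_nonneg_left hσ hθ
  have h5 : θ * K2 ≤ θ * B := mul_le_mul_of_nonneg_left h2 hθ
  nlinarith

/-- Choice of the exponent. -/
lemma exists_exponent (Y t B : ℝ) (hB : 1 < B) (ht : 0 < t) :
    ∃ a : ℕ, 1 ≤ a ∧ Y ≤ t * B ^ a ∧ (a = 1 ∨ t * B ^ (a - 1) < Y) := by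
  classical
  have hex : ∃ a : ℕ, Y ≤ t * B ^ (a + 1) := by
    obtain ⟨a, ha⟩ := pow_unbounded_of_one_lt (Y / t) hB
    refine ⟨a, ?_⟩
    rw [div_lt_iff₀ ht] at ha
    have : B ^ a ≤ B ^ (a + 1) := pow_le_pow_right₀ hB.le (Nat.le_succ a)
    nlinarith
  refine ⟨Nat.find hex + 1, by omega, Nat.find_spec hex, ?_⟩
  by_cases h0 : Nat.find hex = 0
  · left
    omega
  · right
    have h1 := Nat.find_min hex (m := Nat.find hex - 1) (by omega)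
    rw [not_le] at h1
    have h2 : Nat.find hex - 1 + 1 = Nat.find hex + 1 - 1 := by omega
    rwa [h2] at h1

end Pool.Agent.LamSpec
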