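import Mathlib

/-!
# The operators `x ↦ (q x_{i+1} - p x_i)_i` on integer sequences

An integer point `(x_0, …, x_n)` is a linear form on the polynomials of degree at most `n`
(`T^i ↦ x_i`); `D q p` is the composition with the multiplication by `q T - p`.
-/

set_option autoImplicit false

open Finset Polynomial

namespace Pool.Agent.LamSpec

/-- The shift. -/
def sh : Module.End ℤ (ℕ → ℤ) where
  toFun y i := y (i + 1)
  map_add' _ _ := rfl
  map_smul' _ _ := rfl

/-- `x ↦ (q x_{i+1} - p x_i)_i`. -/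
def D (q p : ℤ) : Module.End ℤ (ℕ → ℤ) := q • sh - p • 1

lemma sh_apply (y : ℕ → ℤ) (i : ℕ) : sh y i = y (i + 1) := rfl

lemma D_apply (q p : ℤ) (y : ℕ → ℤ) (i : ℕ) : D q p y i = q * y (i + 1) - p * y i := rfl

lemma sh_pow_apply (y : ℕ → ℤ) (k i : ℕ) : (sh ^ k) y i = y (i + k) := by
  induction k generalizing i with
  | zero => rfl
  | succ k ih =>
    rw [pow_succ', Module.End.mul_apply, sh_apply, ih]
    congr 1
    omega

lemma D_comm (q p q' p' : ℤ) : Commute (D q p) (D q' p') := by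
  unfold Commute SemiconjBy
  refine LinearMap.ext fun y => funext fun i => ?_
  simp only [Module.End.mul_apply, D_apply]
  ring

lemma D_pow_succ (q p : ℤ) (l : ℕ) (y : ℕ → ℤ) : (D q p ^ (l + 1)) y = (D q p ^ l) (D q p y) := by
  rw [pow_succ, Module.End.mul_apply]

lemma D_pow_succ' (q p : ℤ) (l : ℕ) (y : ℕ → ℤ) : (D q p ^ (l + 1)) y = D q p ((D q p ^ l) y) := by
  rw [pow_succ', Module.End.mul_apply]

lemma D_pow_add (q p : ℤ) (a b : ℕ) (y : ℕ → ℤ) :
    (D q p ^ (a + b)) y = (D q p ^ a) ((D q p ^ b) y) := by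
  rw [pow_add, Module.End.mul_apply]

lemma D_pow_comm (q p q' p' : ℤ) (l : ℕ) (y : ℕ → ℤ) :
    (D q p ^ l) (D q' p' y) = D q' p' ((D q p ^ l) y) := by
  have h := (D_comm q p q' p').pow_left l
  have := congrArg (fun f : Module.End ℤ (ℕ → ℤ) => f y) h.eq
  simpa using this

/-- If `z` vanishes on `[0, r + l]` then `D^l z` vanishes on `[0, r]`. -/
lemma D_pow_zero (q p : ℤ) (l : ℕ) : ∀ (r : ℕ) (z : ℕ → ℤ), (∀ i ≤ r + l, z i = 0) →
    ∀ i ≤ r, (D q p ^ l) z i = 0 := by
  induction l with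
  | zero =>
    intro r z hz i hi
    exact hz i (by omega)
  | succ l ih =>
    intro r z hz i hi
    rw [D_pow_succ]
    refine ih r (D q p z) (fun i hi => ?_) i hi
    rw [D_apply, hz i (by omega), hz (i + 1) (by omega)]
    ring

/-- If all the `(D^l x)_0`, `l ≤ n`, vanish then `x` vanishes on `[0, n]`. -/
lemma zero_of_D_pow (q p : ℤ) (hq : q ≠ 0) (n : ℕ) : ∀ x : ℕ → ℤ,
    (∀ l ≤ n, (D q p ^ l) x 0 = 0) → ∀ i ≤ n, x i = 0 := by
  induction n with
  | zero =>
    intro x hx i hi
    have := hx 0 le_rfl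
    rw [pow_zero, Module.End.one_apply] at this
    rw [Nat.le_zero.1 hi]
    exact this
  | succ n ih =>
    intro x hx
    have h1 : ∀ i ≤ n, D q p x i = 0 := ih (D q p x) fun l hl => by
      rw [← D_pow_succ]
      exact hx (l + 1) (by omega)
    have h0 : x 0 = 0 := by
      have := hx 0 (by omega)
      rwa [pow_zero, Module.End.one_apply] at this
    intro i
    induction i with
    | zero => intro _; exact h0
    | succ i ihi =>
      intro hi
      have h2 := h1 i (by omega)
      rw [D_apply, ihi (by omega), mul_zero, sub_zero] at h2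
      exact (mul_eq_zero.1 h2).resolve_left hq

/-- `V q p m j y`: as a linear form on the polynomials of degree at most `m`, `y` kills the
multiples of `(q T - p)^(j+1)`. -/
def V (q p : ℤ) (m j : ℕ) (y : ℕ → ℤ) : Prop := ∀ l, j < l → l ≤ m → (D q p ^ l) y 0 = 0

/-- Composition with another operator. -/
lemma V.comp {q p : ℤ} (hq : q ≠ 0) {m j : ℕ} {y : ℕ → ℤ} (h : V q p (m + 1) j y) (q' p' : ℤ) :
    V q p m j (D q' p' y) := by
  intro l hl hlm
  rw [D_pow_comm, D_apply, h l hl (by omega)]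
  have h1 := h (l + 1) (by omega) (by omega)
  rw [D_pow_succ', D_apply, h l hl (by omega), mul_zero, sub_zero] at h1
  rw [(mul_eq_zero.1 h1).resolve_left hq]
  ring

lemma V.pow {q p : ℤ} {m j : ℕ} {y : ℕ → ℤ} (h : V q p m j y) (a : ℕ) (ha : a ≤ j) (hm : j ≤ m) :
    V q p (m - a) (j - a) ((D q p ^ a) y) := by
  intro l hl hlm
  rw [← D_pow_add]
  exact h (l + a) (by omega) (by omega)

/-- The degree of a nonzero point at `p/q`. -/
lemma exists_deg (q p : ℤ) (hq : q ≠ 0) (n : ℕ) (x : ℕ → ℤ) (hx : ∃ i ≤ n, x i ≠ 0) :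
    ∃ j ≤ n, (D q p ^ j) x 0 ≠ 0 ∧ V q p n j x := by
  classical
  have hex : ∃ l ≤ n, (D q p ^ l) x 0 ≠ 0 := by
    by_contra hcon
    push Not at hcon
    obtain ⟨i, hi, hxi⟩ := hx
    exact hxi (zero_of_D_pow q p hq n x hcon i hi)
  obtain ⟨l, hl, hxl⟩ := hex
  set P : ℕ → Prop := fun l => (D q p ^ l) x 0 ≠ 0 with hP
  refine ⟨Nat.findGreatest P n, Nat.findGreatest_le n, ?_, ?_⟩
  · exact Nat.findGreatest_spec (P := P) hl hxl
  · intro l' h1 h2
    by_contra hne
    exact absurd (Nat.le_findGreatest (P := P) h2 hne) (by omega)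

lemma exists_ne_of_D_pow {q p : ℤ} {l : ℕ} {z : ℕ → ℤ} (h : (D q p ^ l) z 0 ≠ 0) :
    ∃ i ≤ l, z i ≠ 0 := by
  by_contra hcon
  push Not at hcon
  exact h (D_pow_zero q p l 0 z (by simpa using hcon) 0 le_rfl)

/-- If `D x = 0` on `[0, n - 1]` then `q^n` divides `x_0`. -/
lemma pow_dvd_of_D_eq_zero {q p : ℤ} (hco : IsCoprime p q) (n : ℕ) (x : ℕ → ℤ)
    (h : ∀ i < n, D q p x i = 0) : q ^ n ∣ x 0 := by
  have h1 : ∀ i ≤ n, q ^ i * x i = p ^ i * x 0 := by
    intro i
    induction i with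
    | zero => intro _; simp
    | succ i ih =>
      intro hi
      have h2 := h i (by omega)
      rw [D_apply, sub_eq_zero] at h2
      calc q ^ (i + 1) * x (i + 1) = q ^ i * (q * x (i + 1)) := by ring
        _ = p * (q ^ i * x i) := by rw [h2]; ring
        _ = p ^ (i + 1) * x 0 := by rw [ih (by omega)]; ring
  have h2 := h1 n le_rfl
  have h3 : IsCoprime (q ^ n) (p ^ n) := hco.symm.pow
  exact h3.dvd_of_dvd_mul_left ⟨x n, h2.symm⟩

/-! ### The size of the points of low degree -/

/-- The binomial form of the point `y` at `u`. -/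
def bin (m : ℕ) (y : ℕ → ℤ) (u : ℤ) : ℤ :=
  ∑ i ∈ range (m + 1), (m.choose i : ℤ) * u ^ (m - i) * y i

lemma bin_eq (m : ℕ) (y : ℕ → ℤ) (u : ℤ) : bin m y u = ((sh + u • 1) ^ m) y 0 := by
  have hc : Commute sh (u • (1 : Module.End ℤ (ℕ → ℤ))) := (Commute.one_right sh).smul_right u
  rw [hc.add_pow, LinearMap.sum_apply, Finset.sum_apply]
  unfold bin
  refine Finset.sum_congr rfl fun i _ => ?_
  rw [_root_.smul_pow, one_pow, Module.End.mul_apply, Module.End.mul_apply, sh_pow_apply]
  simp only [zero_add]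
  rw [LinearMap.smul_apply, Module.End.one_apply, Pi.smul_apply, smul_eq_mul]
  have : (((m.choose i : ℕ) : Module.End ℤ (ℕ → ℤ)) y) i = (m.choose i : ℤ) * y i := by
    rw [Module.End.natCast_apply]
    simp
  rw [this]
  ring

lemma q_pow_mul_bin (q p : ℤ) (m : ℕ) (y : ℕ → ℤ) (u : ℤ) :
    q ^ m * bin m y u =
      ∑ l ∈ range (m + 1), (m.choose l : ℤ) * (p + u * q) ^ (m - l) * (D q p ^ l) y 0 := by
  have h1 : q • (sh + u • (1 : Module.End ℤ (ℕ → ℤ))) = D q p + (p + u * q) • 1 := by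
    refine LinearMap.ext fun y => funext fun i => ?_
    simp only [LinearMap.smul_apply, LinearMap.add_apply, Module.End.one_apply, Pi.smul_apply,
      Pi.add_apply, smul_eq_mul, D_apply, sh_apply]
    ring
  have h2 : q ^ m • ((sh + u • (1 : Module.End ℤ (ℕ → ℤ))) ^ m) = (D q p + (p + u * q) • 1) ^ m := by
    rw [← h1, _root_.smul_pow]
  have hc : Commute (D q p) ((p + u * q) • (1 : Module.End ℤ (ℕ → ℤ))) :=
    (Commute.one_right _).smul_right _
  have h3 : q ^ m * bin m y u = (q ^ m • ((sh + u • (1 : Module.End ℤ (ℕ → ℤ))) ^ m)) y 0 := by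
    rw [bin_eq]
    rfl
  rw [h3, h2, hc.add_pow, LinearMap.sum_apply, Finset.sum_apply]
  refine Finset.sum_congr rfl fun l _ => ?_
  rw [_root_.smul_pow, one_pow, Module.End.mul_apply, Module.End.mul_apply]
  have e : ((p + u * q) ^ (m - l) • (1 : Module.End ℤ (ℕ → ℤ)))
      (((m.choose l : ℕ) : Module.End ℤ (ℕ → ℤ)) y) =
      ((m.choose l : ℤ) * (p + u * q) ^ (m - l)) • y := by
    rw [Module.End.natCast_apply, LinearMap.smul_apply, Module.End.one_apply]
    rw [← natCast_zsmul, smul_smul]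
    congr 1
    ring
  rw [e, map_smul]
  rfl

lemma exists_bin_ne_zero (m : ℕ) (y : ℕ → ℤ) (hy : ∃ i ≤ m, y i ≠ 0) :
    ∃ u : ℕ, 1 ≤ u ∧ u ≤ m + 1 ∧ bin m y u ≠ 0 := by
  classical
  set P : ℤ[X] := ∑ i ∈ range (m + 1), C ((m.choose i : ℤ) * y i) * X ^ (m - i) with hP
  have hdeg : P.natDegree ≤ m := by
    refine Polynomial.natDegree_sum_le_of_forall_le _ _ fun i _ => ?_
    exact (Polynomial.natDegree_C_mul_X_pow_le _ _).trans (Nat.sub_le m i)
  have heval : ∀ u : ℤ, P.eval u = bin m y u := by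
    intro u
    rw [hP, Polynomial.eval_finsetSum]
    unfold bin
    refine Finset.sum_congr rfl fun i _ => ?_
    rw [Polynomial.eval_mul, Polynomial.eval_C, Polynomial.eval_pow, Polynomial.eval_X]
    ring
  by_contra hcon
  push Not at hcon
  have hzero : P = 0 := by
    refine Polynomial.eq_zero_of_natDegree_lt_card_of_eval_eq_zero' P
      ((Finset.Icc 1 (m + 1)).image (fun u : ℕ => (u : ℤ))) (fun u hu => ?_) ?_
    · rw [Finset.mem_image] at hu
      obtain ⟨v, hv, rfl⟩ := hu
      rw [Finset.mem_Icc] at hv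
      rw [heval]
      exact hcon v hv.1 hv.2
    · rw [Finset.card_image_of_injective _ Nat.cast_injective]
      simp
      omega
  obtain ⟨i, hi, hyi⟩ := hy
  have hc : P.coeff (m - i) = (m.choose i : ℤ) * y i := by
    rw [hP, Polynomial.finsetSum_coeff]
    rw [Finset.sum_eq_single i]
    · rw [Polynomial.coeff_C_mul, Polynomial.coeff_X_pow, if_pos rfl, mul_one]
    · intro b hb hbi
      rw [Polynomial.coeff_C_mul, Polynomial.coeff_X_pow, if_neg, mul_zero]
      rw [Finset.mem_range] at hb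
      omega
    · intro h
      exact absurd (Finset.mem_range.2 (by omega)) h
  rw [hzero, Polynomial.coeff_zero] at hc
  rcases mul_eq_zero.1 hc.symm with h | h
  · have : 0 < m.choose i := Nat.choose_pos hi
    exact absurd (by exact_mod_cast h) this.ne'
  · exact hyi h

/-- **Lemma A.** A nonzero integral linear form on the polynomials of degree at most `m` which kills
the multiples of `(q T - p)^(j+1)` is large. -/
theorem lemA {q p : ℤ} (hq : 0 < q) (hp : 0 ≤ p) (hco : IsCoprime p q) {m j : ℕ} (hj : j ≤ m)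
    {y : ℕ → ℤ} (hV : V q p m j y) (hy : ∃ i ≤ m, y i ≠ 0) :
    ∃ i ≤ m, q ^ (m - j) ≤ (m + 2) ^ m * |y i| := by
  obtain ⟨u, hu1, hum, hu⟩ := exists_bin_ne_zero m y hy
  have hpu : q ≤ p + u * q := by
    have : (1:ℤ) ≤ u := by exact_mod_cast hu1
    nlinarith
  have hdvd : (p + u * q) ^ (m - j) ∣ q ^ m * bin m y u := by
    rw [q_pow_mul_bin q p]
    refine Finset.dvd_sum fun l hl => ?_
    by_cases hlj : l ≤ j
    · have : (p + u * q) ^ (m - j) ∣ (p + u * q) ^ (m - l) := pow_dvd_pow _ (by omega)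
      exact (this.mul_left _).mul_right _
    · rw [hV l (by omega) (by rw [Finset.mem_range] at hl; omega), mul_zero]
      exact dvd_zero _
  have hcop : IsCoprime ((p + u * q) ^ (m - j)) (q ^ m) := by
    apply IsCoprime.pow
    have := IsCoprime.add_mul_right_left hco (u : ℤ)
    exact this
  have hdvd2 : (p + u * q) ^ (m - j) ∣ bin m y u := hcop.dvd_of_dvd_mul_left hdvd
  have hle : (p + u * q) ^ (m - j) ≤ |bin m y u| := by
    have h1 := Int.le_of_dvd (abs_pos.2 hu) ((dvd_abs _ _).2 hdvd2)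
    exact h1
  have hle2 : q ^ (m - j) ≤ |bin m y u| :=
    (pow_le_pow_left₀ hq.le hpu _).trans hle
  by_contra hcon
  push Not at hcon
  have hb : |bin m y u| < q ^ (m - j) := by
    unfold bin
    have h3 : (m + 2 : ℤ) ^ m * |∑ i ∈ range (m + 1), (m.choose i : ℤ) * (u:ℤ) ^ (m - i) * y i|
        < (m + 2 : ℤ) ^ m * q ^ (m - j) := by
      calc (m + 2 : ℤ) ^ m * |∑ i ∈ range (m + 1), (m.choose i : ℤ) * (u:ℤ) ^ (m - i) * y i|
          ≤ (m + 2 : ℤ) ^ m * ∑ i ∈ range (m + 1), |(m.choose i : ℤ) * (u:ℤ) ^ (m - i) * y i| := by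
            gcongr
            exact Finset.abs_sum_le_sum_abs _ _
        _ = ∑ i ∈ range (m + 1), (m.choose i : ℤ) * (u:ℤ) ^ (m - i) * ((m + 2 : ℤ) ^ m * |y i|) := by
            rw [Finset.mul_sum]
            refine Finset.sum_congr rfl fun i _ => ?_
            rw [abs_mul, abs_mul, abs_of_nonneg (by positivity : (0:ℤ) ≤ (m.choose i : ℤ)),
              abs_of_nonneg (by positivity : (0:ℤ) ≤ (u:ℤ) ^ (m - i))]
            ring
        _ < ∑ i ∈ range (m + 1), (m.choose i : ℤ) * (u:ℤ) ^ (m - i) * q ^ (m - j) := by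
            apply Finset.sum_lt_sum_of_nonempty (by simp)
            intro i hi
            rw [Finset.mem_range] at hi
            have h4 := hcon i (by omega)
            have h5 : 0 < (m.choose i : ℤ) := by exact_mod_cast Nat.choose_pos (by omega)
            have h6 : 0 < (u:ℤ) ^ (m - i) := by
              have : (0:ℤ) < u := by exact_mod_cast (by omega : 0 < u)
              positivity
            exact mul_lt_mul_of_pos_left h4 (by positivity)
        _ = (∑ i ∈ range (m + 1), 1 ^ i * (u:ℤ) ^ (m - i) * (m.choose i : ℤ)) * q ^ (m - j) := by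
            rw [Finset.sum_mul]
            refine Finset.sum_congr rfl fun i _ => ?_
            ring
        _ = (1 + u : ℤ) ^ m * q ^ (m - j) := by rw [add_pow]
        _ ≤ (m + 2 : ℤ) ^ m * q ^ (m - j) := by
            have h7 : (u:ℤ) ≤ m + 1 := by exact_mod_cast hum
            have h8 : (1 + u : ℤ) ^ m ≤ (m + 2 : ℤ) ^ m :=
              pow_le_pow_left₀ (by positivity) (by linarith) m
            exact mul_le_mul_of_nonneg_right h8 (by positivity)
    exact lt_of_mul_lt_mul_left h3 (by positivity)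
  exact absurd hle2 (not_le.2 hb)

end Pool.Agent.LamSpec
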