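import Pool.Agent.Lib.LamSpec.Near

/-!
# Numbers with regularly growing denominators of convergents: points of small degree
-/

set_option autoImplicit false

open Finset

namespace Pool.Agent.LamSpec

/-- A real number with a regularly growing sequence of rational approximations. -/
structure Sys (w : ℝ) where
  q : ℕ → ℤ
  p : ℕ → ℤ
  ξ : ℝ
  c : ℝ
  hq : ∀ k, 2 ≤ q k
  hp0 : ∀ k, 0 ≤ p k
  hpq : ∀ k, p k ≤ q k
  hco : ∀ k, IsCoprime (p k) (q k)
  hξ0 : 0 ≤ ξ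
  hξ1 : ξ ≤ 1
  hc : 0 ≤ c
  grow1 : ∀ k, w * Real.log (q k) ≤ Real.log (q (k + 1))
  grow2 : ∀ k, Real.log (q (k + 1)) ≤ w * Real.log (q k) + c
  hL : ∀ k, (q k : ℝ) * ξ - p k ≠ 0
  L1 : ∀ k, |(q k : ℝ) * ξ - p k| * q (k + 1) ≤ 1
  L2 : ∀ k, -Real.log (q (k + 1)) - c ≤ Real.log |(q k : ℝ) * ξ - p k|

namespace Sys

variable {w : ℝ} (S : Sys w)

/-- The logarithm of the denominator. -/
noncomputable def l (k : ℕ) : ℝ := Real.log (S.q k)

/-- The value of the linear form. -/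
noncomputable def L (k : ℕ) : ℝ := (S.q k : ℝ) * S.ξ - S.p k

lemma q_pos (k : ℕ) : (0:ℝ) < S.q k := by
  have := S.hq k
  have h : (2:ℝ) ≤ S.q k := by exact_mod_cast this
  linarith

lemma two_le_q (k : ℕ) : (2:ℝ) ≤ S.q k := by exact_mod_cast S.hq k

lemma one_lt_q (k : ℕ) : (1:ℝ) < S.q k := by linarith [S.two_le_q k]

lemma l_pos (k : ℕ) : 0 < S.l k := Real.log_pos (S.one_lt_q k)

lemma log_two_le_l (k : ℕ) : Real.log 2 ≤ S.l k := Real.log_le_log (by norm_num) (S.two_le_q k)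

lemma l_succ_ge (k : ℕ) : w * S.l k ≤ S.l (k + 1) := S.grow1 k

lemma l_succ_le (k : ℕ) : S.l (k + 1) ≤ w * S.l k + S.c := S.grow2 k

lemma log_L_ge (k : ℕ) : -S.l (k + 1) - S.c ≤ Real.log |S.L k| := S.L2 k

lemma abs_L_pos (k : ℕ) : 0 < |S.L k| := abs_pos.2 (S.hL k)

lemma log_L_le (k : ℕ) : Real.log |S.L k| ≤ -S.l (k + 1) := by
  have h := S.L1 k
  have h1 : Real.log (|S.L k| * S.q (k + 1)) ≤ 0 :=
    Real.log_nonpos (mul_nonneg (abs_nonneg _) (S.q_pos _).le) h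
  rw [Real.log_mul (S.abs_L_pos k).ne' (S.q_pos _).ne'] at h1
  unfold l
  linarith

lemma abs_L_pow_le (k a : ℕ) : |S.L k| ^ a * (S.q (k + 1) : ℝ) ^ a ≤ 1 := by
  rw [← mul_pow]
  exact pow_le_one₀ (mul_nonneg (abs_nonneg _) (S.q_pos _).le) (S.L1 k)

lemma l_tendsto (hw : 1 < w) : ∀ M : ℝ, ∃ k0, ∀ k ≥ k0, M ≤ S.l k := by
  intro M
  have h1 : ∀ k, w ^ k * S.l 0 ≤ S.l k := by
    intro k
    induction k with
    | zero => simp
    | succ k ih =>
      calc w ^ (k + 1) * S.l 0 = w * (w ^ k * S.l 0) := by ring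
        _ ≤ w * S.l k := mul_le_mul_of_nonneg_left ih (by linarith)
        _ ≤ S.l (k + 1) := S.l_succ_ge k
  obtain ⟨k0, hk0⟩ := pow_unbounded_of_one_lt (M / S.l 0) hw
  refine ⟨k0, fun k hk => ?_⟩
  have h2 : w ^ k0 ≤ w ^ k := pow_le_pow_right₀ hw.le hk
  rw [div_lt_iff₀ (S.l_pos 0)] at hk0
  have h3 : w ^ k0 * S.l 0 ≤ w ^ k * S.l 0 := mul_le_mul_of_nonneg_right h2 (S.l_pos 0).le
  linarith [h1 k]

/-- The constant of Lemma A. -/
noncomputable def A (n : ℕ) : ℝ := ((n:ℝ) + 2) ^ n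

lemma one_le_A (n : ℕ) : 1 ≤ A n :=
  one_le_pow₀ (by linarith [(Nat.cast_nonneg n : (0:ℝ) ≤ n)])

lemma A_pos (n : ℕ) : 0 < A n := lt_of_lt_of_le one_pos (one_le_A n)

/-- The logarithm of twice the constant. -/
noncomputable def a0 (n : ℕ) : ℝ := Real.log (2 * A n)

lemma a0_nonneg (n : ℕ) : 0 ≤ a0 n := Real.log_nonneg (by linarith [one_le_A n])

/-- The product with the next linear form does not vanish. -/
lemma next_ne_zero {n : ℕ} {x : ℕ → ℤ} (hx0 : x 0 ≠ 0) (k : ℕ)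
    (hlt : |x 0| < S.q k ^ n) : ∃ i < n, D (S.q k) (S.p k) x i ≠ 0 := by
  by_contra hcon
  push Not at hcon
  have h1 := pow_dvd_of_D_eq_zero (S.hco k) n x hcon
  have h2 := Int.le_of_dvd (abs_pos.2 hx0) ((dvd_abs _ _).2 h1)
  omega

/-- Multiplication by a power of `|L|`. -/
lemma small_of_le {X T : ℝ} {k a : ℕ} (hT : 0 ≤ T)
    (h : X ≤ T * (S.q (k + 1) : ℝ) ^ a) : X * |S.L k| ^ a ≤ T := by
  have h1 : 0 ≤ |S.L k| ^ a := by positivity
  calc X * |S.L k| ^ a ≤ T * (S.q (k + 1) : ℝ) ^ a * |S.L k| ^ a :=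
        mul_le_mul_of_nonneg_right h h1
    _ = T * (|S.L k| ^ a * (S.q (k + 1) : ℝ) ^ a) := by ring
    _ ≤ T * 1 := mul_le_mul_of_nonneg_left (S.abs_L_pow_le k a) hT
    _ = T := mul_one T

/-- The contribution of the next linear form is small. -/
lemma next_small {n : ℕ} (k : ℕ) {X : ℝ} (hX : 0 < X) (hlt : Real.log X ≤ n * S.l (k + 1))
    (hbig : a0 n ≤ (w - n) * S.l (k + 1)) : 2 * A n * (X * |S.L (k + 1)|) ≤ 1 := by
  have hA := A_pos n
  have hL := S.abs_L_pos (k + 1)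
  have h1 : Real.log (2 * A n * (X * |S.L (k + 1)|)) ≤ 0 := by
    rw [Real.log_mul (by positivity) (by positivity), Real.log_mul hX.ne' hL.ne']
    have h2 := S.log_L_le (k + 1)
    have h3 := S.l_succ_ge (k + 1)
    unfold a0 at hbig
    linarith only [h2, h3, hlt, hbig]
  by_contra hcon
  push Not at hcon
  exact absurd h1 (not_le.2 (Real.log_pos hcon))

/-- The points of degree `j`, `1 ≤ j < n`, at `p_k / q_k`. -/
lemma caseA {n : ℕ} {θ : ℝ} (hw : n < w) (hθ : 0 ≤ θ) (hθw : 1 ≤ θ * w)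
    (h3 : ∀ j : ℕ, 1 ≤ j → j < n → w + 1 - n + j ≤ θ * (n - j + w * j))
    {k : ℕ} {x : ℕ → ℤ} {E : ℝ} (hE : 0 < E) (hN : Near S.ξ x n (x 0) E) (hx0 : x 0 ≠ 0)
    (hlt : |x 0| < S.q (k + 1) ^ n) {j : ℕ} (hj1 : 1 ≤ j) (hjn : j < n)
    (hdeg : (D (S.q k) (S.p k) ^ j) x 0 ≠ 0) (hV : V (S.q k) (S.p k) n j x)
    (hbig : a0 n ≤ (w - n) * S.l (k + 1)) :
    -Real.log E ≤ θ * Real.log |(x 0 : ℝ)| + (1 + θ) * (a0 n + (n + 2) * (S.c + 2)) := by
  obtain ⟨d, rfl⟩ : ∃ d, n = j + d := ⟨n - j, by omega⟩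
  have hd1 : 1 ≤ d := by omega
  set n := j + d with hn
  have hnR : (n:ℝ) = j + d := by rw [hn]; push_cast; ring
  have hd1R : (1:ℝ) ≤ d := by exact_mod_cast hd1
  have hj1R : (1:ℝ) ≤ j := by exact_mod_cast hj1
  have hw1 : 1 < w := by linarith
  have hqk := S.q_pos k
  have hqk1 := S.q_pos (k + 1)
  have hX : (1:ℝ) ≤ |(x 0 : ℝ)| := by exact_mod_cast Int.one_le_abs hx0
  have hX0 : (0:ℝ) < |(x 0 : ℝ)| := by linarith
  have hσ0 : 0 ≤ Real.log |(x 0 : ℝ)| := Real.log_nonneg hX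
  have hA := A_pos n
  have hA1 := one_le_A n
  have ha0 := a0_nonneg n
  have hc := S.hc
  have hlog2 : Real.log 2 ≤ 1 := by linarith [Real.log_two_lt_d9]
  have hlog2' : 0 ≤ Real.log 2 := Real.log_nonneg (by norm_num)
  have hl := S.l_pos k
  have hl1 := S.l_pos (k + 1)
  have hqZ : (0:ℤ) < S.q k := by linarith only [S.hq k]
  have hn0 : (0:ℝ) ≤ n := Nat.cast_nonneg n
  have hnc : 0 ≤ (n:ℝ) * S.c := mul_nonneg hn0 hc
  set B := a0 n + (n + 2) * (S.c + 2) with hB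
  have hB' : B = a0 n + n * S.c + 2 * S.c + 2 * n + 4 := by rw [hB]; ring
  clear_value B
  have hB0 : 0 ≤ B := by linarith only [hB', ha0, hnc, hc, hn0]
  have hBa : a0 n ≤ B := by linarith only [hB', hnc, hc, hn0]
  obtain ⟨a, ha1, haY, hamin⟩ := exists_exponent (2 * A n * |(x 0 : ℝ)|) ((S.q k : ℝ) ^ d)
    (S.q (k + 1)) (S.one_lt_q (k + 1)) (by positivity)
  by_cases haj : a ≤ j
  · -- Lemma A for `D^a x`
    have hN' := hN.pow (S.hp0 k) (S.hpq k) a (by omega)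
    have hz : ∃ i ≤ n - a, (D (S.q k) (S.p k) ^ a) x i ≠ 0 := by
      have h1 : (D (S.q k) (S.p k) ^ (j - a)) ((D (S.q k) (S.p k) ^ a) x) 0 ≠ 0 := by
        rw [← D_pow_add, Nat.sub_add_cancel haj]
        exact hdeg
      obtain ⟨i, hi, hne⟩ := exists_ne_of_D_pow h1
      exact ⟨i, by omega, hne⟩
    have h4 := lemA_near S.hξ0 S.hξ1 (n := n) (hqZ : (0:ℤ) < S.q k) (S.hp0 k)
      (S.hco k) (by omega) (by omega) (hV.pow a haj hjn.le) hz hN'
    have e1 : n - a - (j - a) = d := by omega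
    rw [e1, abs_mul, abs_pow] at h4
    have h5 : 2 * A n * (|(x 0 : ℝ)| * |S.L k| ^ a) ≤ (S.q k : ℝ) ^ d := by
      rw [← mul_assoc]
      exact S.small_of_le (by positivity) haY
    have h6 := log_ge_of_alt hA (by positivity) h4 h5
    rw [Real.log_pow, Real.log_mul (by positivity) hE.ne', Real.log_pow,
      Real.log_mul (by norm_num) hqk.ne'] at h6
    have haR : (a:ℝ) ≤ j := by exact_mod_cast haj
    have ha1R : (1:ℝ) ≤ a := by exact_mod_cast ha1
    have h7 : -Real.log E ≤ ((a:ℝ) - d) * S.l k + (a0 n + a * Real.log 2) := by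
      unfold a0 l
      linarith only [h6]
    have hK1 : a0 n + a * Real.log 2 ≤ B := by
      have h8 : (a:ℝ) * Real.log 2 ≤ n * 1 := by
        apply mul_le_mul _ hlog2 hlog2' hn0
        rw [hnR]
        linarith only [haR, hd1R]
      linarith only [h8, hB', hnc, hc, hn0]
    rcases hamin with ha | ha
    · subst ha
      refine finish (e := 0) (s := 0) (l := S.l k) (K2 := 0) hθ hl.le (by simp) (by simpa using hσ0)
        ?_ hK1 hB0
      have h8 : ((1:ℕ) - (d:ℝ)) * S.l k ≤ 0 := by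
        apply mul_nonpos_of_nonpos_of_nonneg _ hl.le
        push_cast
        linarith only [hd1R]
      linarith only [h7, h8]
    · have hσ : ((d:ℝ) + w * ((a:ℝ) - 1)) * S.l k - a0 n ≤ Real.log |(x 0 : ℝ)| := by
        have h8 := Real.log_lt_log (by positivity) ha
        rw [Real.log_mul (by positivity) (by positivity), Real.log_pow, Real.log_pow,
          Real.log_mul (by positivity) hX0.ne', Nat.cast_sub ha1] at h8
        have h9 := S.l_succ_ge k
        have h10 : ((a:ℝ) - 1) * (w * S.l k) ≤ ((a:ℝ) - 1) * S.l (k + 1) :=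
          mul_le_mul_of_nonneg_left h9 (by linarith only [ha1R])
        unfold a0
        unfold l at h10 ⊢
        push_cast at h8
        linarith only [h8, h10]
      refine finish hθ hl.le ?_ hσ h7 hK1 hBa
      have h8 : 1 * ((a:ℝ) - 1) ≤ θ * w * ((a:ℝ) - 1) :=
        mul_le_mul_of_nonneg_right hθw (by linarith only [ha1R])
      have h9 : 0 ≤ θ * d := by positivity
      have h10 : θ * ((d:ℝ) + w * ((a:ℝ) - 1)) = θ * d + θ * w * ((a:ℝ) - 1) := by ring
      rw [h10]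
      linarith only [h8, h9, hd1R]
  · -- the next linear form
    push Not at haj
    have hY : (S.q k : ℝ) ^ d * (S.q (k + 1) : ℝ) ^ j < 2 * A n * |(x 0 : ℝ)| := by
      rcases hamin with ha | ha
      · omega
      · refine lt_of_le_of_lt ?_ ha
        apply mul_le_mul_of_nonneg_left _ (by positivity)
        exact pow_le_pow_right₀ (S.one_lt_q (k + 1)).le (by omega)
    have hσ : ((d:ℝ) + w * j) * S.l k - a0 n ≤ Real.log |(x 0 : ℝ)| := by
      have h8 := Real.log_lt_log (by positivity) hY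
      rw [Real.log_mul (by positivity) (by positivity), Real.log_pow, Real.log_pow,
        Real.log_mul (by positivity) hX0.ne'] at h8
      have h9 := S.l_succ_ge k
      have h10 : (j:ℝ) * (w * S.l k) ≤ (j:ℝ) * S.l (k + 1) :=
        mul_le_mul_of_nonneg_left h9 (Nat.cast_nonneg j)
      unfold a0
      unfold l at h10 ⊢
      linarith only [h8, h10]
    have hltR : |(x 0 : ℝ)| < (S.q (k + 1) : ℝ) ^ n := by exact_mod_cast hlt
    have hltlog : Real.log |(x 0 : ℝ)| ≤ n * S.l (k + 1) := by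
      have := Real.log_le_log hX0 hltR.le
      rwa [Real.log_pow] at this
    obtain ⟨n', hn'⟩ : ∃ n', n = n' + 1 := ⟨n - 1, by omega⟩
    have hN' : Near S.ξ (D (S.q (k + 1)) (S.p (k + 1)) x) n'
        ((x 0 : ℝ) * S.L (k + 1)) (2 * S.q (k + 1) * E) :=
      Near.step (by rwa [hn'] at hN) (S.hp0 _) (S.hpq _)
    obtain ⟨i, hi, hne⟩ := S.next_ne_zero hx0 (k + 1) hlt
    have hV' : V (S.q k) (S.p k) n' j (D (S.q (k + 1)) (S.p (k + 1)) x) :=
      V.comp hqZ.ne' (by rwa [hn'] at hV) _ _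
    have h4 := lemA_near S.hξ0 S.hξ1 (n := n) (hqZ : (0:ℤ) < S.q k) (S.hp0 k)
      (S.hco k) (by omega) (by omega) hV' ⟨i, by omega, hne⟩ hN'
    rw [abs_mul] at h4
    have h5 : 2 * A n * (|(x 0 : ℝ)| * |S.L (k + 1)|) ≤ (S.q k : ℝ) ^ (n' - j) :=
      (S.next_small k hX0 hltlog hbig).trans (one_le_pow₀ (S.one_lt_q k).le)
    have h6 := log_ge_of_alt hA (by positivity) h4 h5
    rw [Real.log_pow, Real.log_mul (by positivity) hE.ne', Real.log_mul (by norm_num) hqk1.ne'] at h6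
    have hsub : ((n' - j : ℕ) : ℝ) = d - 1 := by
      have : n' - j = d - 1 := by omega
      rw [this, Nat.cast_sub hd1]
      simp
    rw [hsub] at h6
    have h9 := S.l_succ_le k
    have h7 : -Real.log E ≤ (w + 1 - d) * S.l k + (a0 n + S.c + Real.log 2) := by
      unfold a0
      unfold l at h9 ⊢
      linarith only [h9, h6]
    have hK1 : a0 n + S.c + Real.log 2 ≤ B := by linarith only [hB', hnc, hc, hn0, hlog2]
    refine finish hθ hl.le ?_ hσ h7 hK1 hBa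
    have h10 := h3 j hj1 hjn
    rw [hnR] at h10
    have e2 : w + 1 - ((j:ℝ) + d) + j = w + 1 - d := by ring
    have e3 : (j:ℝ) + d - j + w * j = d + w * j := by ring
    rwa [e2, e3] at h10

end Sys

end Pool.Agent.LamSpec
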