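import Mathlib

/-!
# A transference theorem: lattices whose dual has no short vectors have small covering radius
-/

set_option autoImplicit false

open Module

namespace Pool.Agent.LamSpec

section

variable {V : Type} [NormedAddCommGroup V] [InnerProductSpace ℝ V]

open scoped InnerProductSpace

/-- `φ` is in the dual lattice. -/
def IsDual (L : Submodule ℤ V) (φ : V) : Prop := ∀ v ∈ L, ∃ m : ℤ, ⟪φ, v⟫_ℝ = m

/-- The span of a lattice whose dual has no short vectors is everything. -/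
lemma span_eq_top [FiniteDimensional ℝ V] (L : Submodule ℤ V) {s : ℝ} (hs : 0 < s)
    (h : ∀ φ : V, φ ≠ 0 → IsDual L φ → s ≤ ‖φ‖) : Submodule.span ℝ (L : Set V) = ⊤ := by
  by_contra hne
  have hne' : (Submodule.span ℝ (L : Set V))ᗮ ≠ ⊥ := by
    intro h0
    exact hne ((Submodule.orthogonal_eq_bot_iff).1 h0)
  obtain ⟨ψ, hψ, hψ0⟩ := Submodule.exists_mem_ne_zero_of_ne_bot hne'
  have hψn : 0 < ‖ψ‖ := norm_pos_iff.2 hψ0
  have h1 := h ((s / (2 * ‖ψ‖)) • ψ) (smul_ne_zero (by positivity) hψ0) (fun v hv => ⟨0, by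
    rw [inner_smul_left, Submodule.inner_left_of_mem_orthogonal (Submodule.subset_span hv) hψ]
    simp⟩)
  rw [norm_smul, Real.norm_of_nonneg (by positivity)] at h1
  have h2 : s / (2 * ‖ψ‖) * ‖ψ‖ = s / 2 := by
    field_simp
  linarith

/-- The dual of a lattice is not trivial. -/
lemma exists_dual [FiniteDimensional ℝ V] (hV : 0 < finrank ℝ V) (L : Submodule ℤ V)
    [DiscreteTopology L] (hspan : Submodule.span ℝ (L : Set V) = ⊤) :
    ∃ φ : V, φ ≠ 0 ∧ IsDual L φ := by
  have : IsZLattice ℝ L := ⟨hspan⟩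
  have : Module.Free ℤ L := ZLattice.module_free ℝ L
  have : Module.Finite ℤ L := ZLattice.module_finite ℝ L
  let b := Module.Free.chooseBasis ℤ L
  let B := b.ofZLatticeBasis ℝ L
  have : Nonempty (Module.Free.ChooseBasisIndex ℤ L) := by
    by_contra hemp
    rw [not_nonempty_iff] at hemp
    have h1 : finrank ℝ V = Fintype.card (Module.Free.ChooseBasisIndex ℤ L) :=
      finrank_eq_card_basis B
    rw [Fintype.card_eq_zero] at h1
    omega
  let i : Module.Free.ChooseBasisIndex ℤ L := Classical.arbitrary _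
  let f : V →L[ℝ] ℝ := LinearMap.toContinuousLinearMap (B.coord i)
  refine ⟨(InnerProductSpace.toDual ℝ V).symm f, ?_, ?_⟩
  · intro h0
    have h1 : f (B i) = 1 := by
      simp [f]
    have h2 : ⟪(InnerProductSpace.toDual ℝ V).symm f, B i⟫_ℝ = f (B i) :=
      InnerProductSpace.toDual_symm_apply
    rw [h0, inner_zero_left, h1] at h2
    exact zero_ne_one h2
  · intro v hv
    refine ⟨b.repr ⟨v, hv⟩ i, ?_⟩
    rw [InnerProductSpace.toDual_symm_apply]
    have := b.ofZLatticeBasis_repr_apply ℝ L ⟨v, hv⟩ i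
    simpa [f, B] using this

/-- A dual vector shorter than twice the others takes the value `1`. -/
lemma exists_one [FiniteDimensional ℝ V] (L : Submodule ℤ V)
    (hspan : Submodule.span ℝ (L : Set V) = ⊤) {s : ℝ}
    (hmin : ∀ ψ : V, ψ ≠ 0 → IsDual L ψ → s ≤ ‖ψ‖) {φ : V} (hφ0 : φ ≠ 0) (hφ : IsDual L φ)
    (hlt : ‖φ‖ < 2 * s) : ∃ v ∈ L, ⟪φ, v⟫_ℝ = 1 := by
  classical
  -- the minimal positive value
  have hex : ∃ m : ℕ, 0 < m ∧ ∃ v ∈ L, ⟪φ, v⟫_ℝ = m := by
    by_contra hcon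
    push Not at hcon
    have hzero : ∀ v ∈ L, ⟪φ, v⟫_ℝ = 0 := by
      intro v hv
      obtain ⟨m, hm⟩ := hφ v hv
      by_contra hne
      rw [hm] at hne
      have hm0 : m ≠ 0 := by
        rintro rfl
        exact hne (by simp)
      rcases lt_or_gt_of_ne hm0 with h | h
      · refine hcon (-m).toNat (by omega) (-v) (L.neg_mem hv) ?_
        rw [inner_neg_right, hm]
        have : (((-m).toNat : ℤ) : ℝ) = ((-m : ℤ) : ℝ) := by
          rw [Int.toNat_of_nonneg (by omega)]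
        push_cast at this
        exact this.symm
      · refine hcon m.toNat (by omega) v hv ?_
        rw [hm]
        have : ((m.toNat : ℤ) : ℝ) = (m : ℝ) := by
          rw [Int.toNat_of_nonneg (by omega)]
        push_cast at this
        exact this.symm
    apply hφ0
    have hmem : φ ∈ (Submodule.span ℝ (L : Set V))ᗮ := by
      rw [Submodule.mem_orthogonal']
      intro y hy
      induction hy using Submodule.span_induction with
      | mem y hy => exact hzero y hy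
      | zero => exact inner_zero_right _
      | add y z _ _ hy hz => rw [inner_add_right, hy, hz, add_zero]
      | smul c y _ hy => rw [inner_smul_right, hy, mul_zero]
    rw [hspan, Submodule.top_orthogonal_eq_bot, Submodule.mem_bot] at hmem
    exact hmem
  obtain ⟨hd0, v₁, hv₁, hd⟩ := Nat.find_spec hex
  set d := Nat.find hex with hddef
  have hdvd : ∀ v ∈ L, ∃ m : ℤ, ⟪φ, v⟫_ℝ = d * m := by
    intro v hv
    obtain ⟨m, hm⟩ := hφ v hv
    refine ⟨m / d, ?_⟩
    have hval : ⟪φ, v - (m / (d:ℤ)) • v₁⟫_ℝ = ((m % d : ℤ) : ℝ) := by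
      rw [inner_sub_right, hm]
      have e : ⟪φ, (m / (d:ℤ)) • v₁⟫_ℝ = ((m / (d:ℤ) : ℤ) : ℝ) * d := by
        rw [← hd, ← Int.cast_smul_eq_zsmul ℝ, inner_smul_right]
      rw [e, Int.emod_def]
      push_cast
      ring
    have hr0 : m % (d:ℤ) = 0 := by
      by_contra hne
      have h1 := Int.emod_nonneg m (by omega : (d:ℤ) ≠ 0)
      have h2 := Int.emod_lt_of_pos m (by omega : (0:ℤ) < d)
      refine Nat.find_min hex (m := (m % (d:ℤ)).toNat) (by omega) ⟨by omega,
        v - (m / (d:ℤ)) • v₁, L.sub_mem hv (L.smul_mem _ hv₁), ?_⟩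
      rw [hval]
      have : (((m % (d:ℤ)).toNat : ℤ) : ℝ) = ((m % (d:ℤ) : ℤ) : ℝ) := by
        rw [Int.toNat_of_nonneg h1]
      push_cast at this
      exact this.symm
    rw [hm]
    have h3 : (d:ℤ) * (m / d) = m := by
      have := Int.emod_add_mul_ediv m d
      omega
    exact_mod_cast h3.symm
  have hdR : (0:ℝ) < d := by exact_mod_cast hd0
  have h1 := hmin ((1 / (d:ℝ)) • φ) (smul_ne_zero (by positivity) hφ0) (fun v hv => by
    obtain ⟨m, hm⟩ := hdvd v hv
    refine ⟨m, ?_⟩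
    rw [inner_smul_left, hm]
    simp
    field_simp)
  rw [norm_smul, Real.norm_of_nonneg (by positivity)] at h1
  have hφn : 0 < ‖φ‖ := norm_pos_iff.2 hφ0
  have hd2 : (d:ℝ) < 2 := by
    have h2 : (d:ℝ) * s ≤ ‖φ‖ := by
      rw [one_div, inv_mul_eq_div, le_div_iff₀ hdR] at h1
      linarith
    by_contra hcon
    push Not at hcon
    have hs : 0 < s := by linarith
    nlinarith
  have hd1 : d = 1 := by
    have : d < 2 := by exact_mod_cast hd2
    omega
  refine ⟨v₁, hv₁, ?_⟩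
  rw [hd, hd1]
  simp

/-- **Transference.** -/
theorem cov (N : ℕ) : ∃ C : ℝ, 0 ≤ C ∧ ∀ (V : Type) [NormedAddCommGroup V]
    [InnerProductSpace ℝ V] [FiniteDimensional ℝ V], finrank ℝ V = N →
    ∀ (L : Submodule ℤ V) [DiscreteTopology L] (s : ℝ), 0 < s →
    (∀ φ : V, φ ≠ 0 → IsDual L φ → s ≤ ‖φ‖) → ∀ x : V, ∃ v ∈ L, ‖x - v‖ ≤ C / s := by
  induction N with
  | zero =>
    refine ⟨0, le_rfl, fun V _ _ _ hV L _ s hs _ x => ⟨0, L.zero_mem, ?_⟩⟩
    have := finrank_zero_iff.1 hV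
    rw [Subsingleton.elim x 0]
    simp
  | succ N ih =>
    obtain ⟨C, hC, ih⟩ := ih
    refine ⟨2 * C + 1, by positivity, fun V _ _ _ hV L _ s hs hmin x => ?_⟩
    have hspan := span_eq_top L hs hmin
    obtain ⟨φ₀, hφ₀, hφ₀d⟩ := exists_dual (by omega) L hspan
    set A : Set ℝ := {t | ∃ φ : V, φ ≠ 0 ∧ IsDual L φ ∧ ‖φ‖ = t} with hA
    have hAne : A.Nonempty := ⟨_, φ₀, hφ₀, hφ₀d, rfl⟩
    have hAb : BddBelow A := ⟨s, by
      rintro _ ⟨φ, h1, h2, rfl⟩
      exact hmin φ h1 h2⟩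
    set t := sInf A with ht
    have hst : s ≤ t := le_csInf hAne (by
      rintro _ ⟨φ, h1, h2, rfl⟩
      exact hmin φ h1 h2)
    have ht0 : 0 < t := by linarith
    obtain ⟨_, ⟨φ, hφ0, hφ, rfl⟩, hφlt⟩ := exists_lt_of_csInf_lt hAne
      (by linarith : sInf A < 5 / 4 * t)
    have hmin' : ∀ ψ : V, ψ ≠ 0 → IsDual L ψ → t ≤ ‖ψ‖ := fun ψ h1 h2 =>
      csInf_le hAb ⟨ψ, h1, h2, rfl⟩
    obtain ⟨v₁, hv₁, hv₁1⟩ := exists_one L hspan hmin' hφ0 hφ (by linarith)
    have hφn : 0 < ‖φ‖ := norm_pos_iff.2 hφ0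
    have hφt : t ≤ ‖φ‖ := hmin' φ hφ0 hφ
    -- the orthogonal complement
    set W : Submodule ℝ V := (ℝ ∙ φ)ᗮ with hW
    have hWr : finrank ℝ W = N := by
      have h1 : finrank ℝ (ℝ ∙ φ : Submodule ℝ V) + finrank ℝ W = finrank ℝ V :=
        Submodule.finrank_add_finrank_orthogonal (ℝ ∙ φ)
      rw [finrank_span_singleton hφ0, hV] at h1
      omega
    have hWmem : ∀ y : V, y ∈ W ↔ ⟪φ, y⟫_ℝ = 0 := fun y => Submodule.mem_orthogonal_singleton_iff_inner_right
    let L₀ : Submodule ℤ W := L.comap (W.subtype.restrictScalars ℤ)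
    have hL₀ : ∀ y : W, y ∈ L₀ ↔ (y : V) ∈ L := fun y => Iff.rfl
    have hdisc : DiscreteTopology L₀ := by
      let f : L₀ → L := fun y => ⟨(y : V), y.2⟩
      have hf : Continuous f :=
        Continuous.subtype_mk (continuous_subtype_val.comp continuous_subtype_val) _
      refine DiscreteTopology.of_continuous_injective hf ?_
      intro y z hyz
      have := congrArg Subtype.val hyz
      exact Subtype.ext (Subtype.ext this)
    have key : ∀ ψ : W, ψ ≠ 0 → IsDual L₀ ψ → s / 2 ≤ ‖ψ‖ := by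
      intro ψ hψ0 hψ
      set r := ⟪(ψ : V), v₁⟫_ℝ with hr
      set c : ℝ := round r - r with hc
      have hc2 : |c| ≤ 1 / 2 := by
        have := abs_sub_round r
        rw [hc, abs_sub_comm]
        exact this
      have hψφ : ⟪(ψ : V), φ⟫_ℝ = 0 := by
        rw [real_inner_comm]
        exact (hWmem _).1 ψ.2
      have hdual : IsDual L ((ψ : V) + c • φ) := by
        intro v hv
        obtain ⟨m, hm⟩ := hφ v hv
        set y : V := v - m • v₁ with hy
        have hyL : y ∈ L := L.sub_mem hv (L.smul_mem _ hv₁)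
        have hmv : ⟪φ, m • v₁⟫_ℝ = m := by
          rw [← Int.cast_smul_eq_zsmul ℝ, inner_smul_right, hv₁1, mul_one]
        have hyW : y ∈ W := by
          rw [hWmem, hy, inner_sub_right, hm, hmv, sub_self]
        obtain ⟨m', hm'⟩ := hψ ⟨y, hyW⟩ ((hL₀ _).2 hyL)
        refine ⟨m * round r + m', ?_⟩
        have e1 : ⟪(ψ : V), v⟫_ℝ = m * r + m' := by
          have e2 : v = m • v₁ + y := by rw [hy]; abel
          rw [e2, inner_add_right, ← Int.cast_smul_eq_zsmul ℝ, inner_smul_right]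
          have : ⟪(ψ : V), y⟫_ℝ = m' := hm'
          rw [this]
        rw [inner_add_left, inner_smul_left, hm, e1]
        simp only [conj_trivial]
        push_cast
        rw [hc]
        ring
      have hnorm : ‖(ψ : V) + c • φ‖ ^ 2 = ‖(ψ : V)‖ ^ 2 + c ^ 2 * ‖φ‖ ^ 2 := by
        rw [@norm_add_sq_real, inner_smul_right, hψφ, norm_smul, mul_pow, Real.norm_eq_abs, sq_abs]
        ring
      have hψn : 0 < ‖(ψ : V)‖ := norm_pos_iff.2 (fun h => hψ0 (Subtype.ext h))
      have hne : (ψ : V) + c • φ ≠ 0 := by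
        intro h0
        rw [h0] at hnorm
        have : 0 ≤ c ^ 2 * ‖φ‖ ^ 2 := by positivity
        have : 0 < ‖(ψ : V)‖ ^ 2 := by positivity
        rw [norm_zero] at hnorm
        nlinarith
      have h1 := hmin' _ hne hdual
      have h2 : t ^ 2 ≤ ‖(ψ : V)‖ ^ 2 + c ^ 2 * ‖φ‖ ^ 2 := by
        rw [← hnorm]
        exact pow_le_pow_left₀ ht0.le h1 2
      have h3 : c ^ 2 ≤ 1 / 4 := by
        have := pow_le_pow_left₀ (abs_nonneg c) hc2 2
        rw [sq_abs] at this
        linarith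
      have h4 : ‖φ‖ ^ 2 ≤ (5 / 4 * t) ^ 2 := pow_le_pow_left₀ hφn.le hφlt.le 2
      have h5 : c ^ 2 * ‖φ‖ ^ 2 ≤ 1 / 4 * (5 / 4 * t) ^ 2 := by
        apply mul_le_mul h3 h4 (by positivity) (by norm_num)
      have h6 : (s / 2) ^ 2 ≤ ‖(ψ : V)‖ ^ 2 := by
        have h7 : s ^ 2 ≤ t ^ 2 := pow_le_pow_left₀ hs.le hst 2
        nlinarith
      have h8 := abs_le_of_sq_le_sq' h6 (norm_nonneg _)
      exact h8.2
    have hfin := ih W hWr L₀ (s / 2) (by positivity) key
    -- the approximation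
    set r := ⟪φ, x⟫_ℝ with hr
    set m : ℤ := round r with hm
    set x' : V := x - m • v₁ with hx'
    have hx'φ : ⟪φ, x'⟫_ℝ = r - m := by
      rw [hx', inner_sub_right, ← Int.cast_smul_eq_zsmul ℝ, inner_smul_right, hv₁1, mul_one]
    have hrm : |r - m| ≤ 1 / 2 := abs_sub_round r
    set c : ℝ := (r - m) / ‖φ‖ ^ 2 with hc
    have hφ2 : ⟪φ, φ⟫_ℝ = ‖φ‖ ^ 2 := real_inner_self_eq_norm_sq φ
    have hx''W : x' - c • φ ∈ W := by
      rw [hWmem, inner_sub_right, inner_smul_right, hx'φ, hφ2, hc]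
      field_simp
      ring
    obtain ⟨y, hy, hyle⟩ := hfin ⟨x' - c • φ, hx''W⟩
    refine ⟨m • v₁ + (y : V), L.add_mem (L.smul_mem _ hv₁) hy, ?_⟩
    have e1 : x - (m • v₁ + (y : V)) = (x' - c • φ - y) + c • φ := by
      rw [hx']
      abel
    have h1 : ‖x' - c • φ - (y : V)‖ ≤ C / (s / 2) := hyle
    have h2 : ‖c • φ‖ ≤ 1 / (2 * s) := by
      rw [norm_smul, hc, Real.norm_eq_abs, abs_div, abs_of_pos (by positivity : 0 < ‖φ‖ ^ 2)]
      have e2 : |r - m| / ‖φ‖ ^ 2 * ‖φ‖ = |r - m| / ‖φ‖ := by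
        field_simp
      rw [e2, div_le_div_iff₀ hφn (by positivity)]
      nlinarith [abs_nonneg (r - m)]
    calc ‖x - (m • v₁ + (y : V))‖ ≤ ‖x' - c • φ - (y : V)‖ + ‖c • φ‖ := by
          rw [e1]; exact norm_add_le _ _
      _ ≤ C / (s / 2) + 1 / (2 * s) := add_le_add h1 h2
      _ ≤ (2 * C + 1) / s := by
          have e3 : (2 * C + 1) / s - (C / (s / 2) + 1 / (2 * s)) = 1 / (2 * s) := by
            field_simp
            ring
          have : 0 < 1 / (2 * s) := by positivity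
          linarith

end

end Pool.Agent.LamSpec
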